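import Pool.Agent.H897Z.MS.Ext

open NumberField

namespace Pool.Agent.H897Z.MS

lemma tsum_fiber_count {X Y : Type} (π : X → Y) (f : Y → ℂ)
    (hfin : ∀ y, Finite {x // π x = y})
    (hs : Summable fun y => (Nat.card {x // π x = y} : ℝ) * ‖f y‖) :
    ∑' x, f (π x) = ∑' y, (Nat.card {x // π x = y} : ℂ) * f y := by
  have hsum : Summable (fun p : Σ y, {x // π x = y} => f p.1) := by
    apply Summable.of_norm
    rw [summable_sigma_of_nonneg (fun _ => norm_nonneg _)]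
    refine ⟨fun y => Summable.of_finite, ?_⟩
    refine hs.congr fun y => ?_
    simp only
    rw [tsum_const, nsmul_eq_mul]
  rw [← (Equiv.sigmaFiberEquiv π).tsum_eq]
  have e : (fun c : Σ y, {x // π x = y} => f (π (Equiv.sigmaFiberEquiv π c))) = fun p => f p.1 := by
    funext p
    rw [Equiv.sigmaFiberEquiv_apply, p.2.2]
  rw [e, hsum.tsum_sigma' (fun y => Summable.of_finite)]
  refine tsum_congr fun y => ?_
  simp only
  rw [tsum_const, nsmul_eq_mul]

variable {K : Type} [Field K] {O O' : Subalgebra ℤ K}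

/-- classes of the monoid -/
def stQ (σ : K →+* ℝ) (m' : Submodule O' K) :
    Setoid {b : (Submodule O' K)ˣ // (b : Submodule O' K) ≤ L m' 1} where
  r x y := NF σ m' x.1 y.1
  iseqv := ⟨fun _ => NF.refl _, NF.symm, NF.trans⟩

/-- the monoid as a type -/
def Q (σ : K →+* ℝ) (m' : Submodule O' K) : Type := Quotient (stQ σ m')

/-- a representative -/
noncomputable def rep {σ : K →+* ℝ} {m' : Submodule O' K} (q : Q σ m') : (Submodule O' K)ˣ :=
  (Quotient.out (s := stQ σ m') q).1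

variable {σ : K →+* ℝ} {m m1 : Submodule O K} {m' : Submodule O' K}

lemma rep_le (q : Q σ m') : ((rep q : (Submodule O' K)ˣ) : Submodule O' K) ≤ L m' 1 :=
  (Quotient.out (s := stQ σ m') q).2

lemma exists_rep {b : (Submodule O' K)ˣ} (hb : (b : Submodule O' K) ≤ L m' 1) :
    ∃ q : Q σ m', NF σ m' (rep q) b :=
  ⟨Quotient.mk (stQ σ m') ⟨b, hb⟩, Quotient.mk_out (s := stQ σ m') ⟨b, hb⟩⟩

lemma rep_inj {q r : Q σ m'} (h : NF σ m' (rep q) (rep r)) : q = r :=
  Quotient.out_equiv_out.1 h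

lemma exists_perm [Finite (Q σ m')] {B : (Submodule O' K)ˣ} (hB : B ∈ G m') :
    ∃ e : Q σ m' ≃ Q σ m', ∀ q, NF σ m' (rep (e q)) (rep q * B) := by
  have h1 : ∀ q : Q σ m', ∃ r : Q σ m', NF σ m' (rep r) (rep q * B) := fun q =>
    exists_rep (by rw [Units.val_mul]; exact mul_le_L1 (rep_le q) hB.1)
  choose g hg using h1
  have hinj : Function.Injective g := by
    intro q r e
    have h2 := hg q
    rw [e] at h2
    exact rep_inj ((h2.symm.trans (hg r)).of_mul_right hB)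
  exact ⟨Equiv.ofBijective g hinj.bijective_of_finite, hg⟩

lemma finite_Q (h : Good m') {T : Type} [Finite T] (φ : (Submodule O' K)ˣ → T)
    (hφ : ∀ c ∈ G m', ∀ d ∈ G m', φ c = φ d →
      ∃ l : Kˣ, (l : K) - 1 ∈ L m' m' ∧ 0 < σ l ∧ d = pr O' l * c) : Finite (Q σ m') := by
  have hq := h.finite_quot
  have h1 : ∀ q : Q σ m', ∃ (γ : Kˣ) (g : O'), (pr O' γ)⁻¹ * rep q ∈ G m' ∧ (γ : K) ∈ L m' 1 ∧
      (γ : K) - g ∈ L m' m' := by
    intro q
    obtain ⟨γ, hγ, hG⟩ := h.exists_gen (rep q)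
    obtain ⟨z, hz, hzO, h2⟩ := rep_le q hγ
    refine ⟨γ, ⟨_, mem_one'.1 h2⟩, hG, rep_le q hγ, ?_⟩
    have e : (γ : K) - (1 - z) * γ = z * γ := by ring
    change (γ : K) - (1 - z) * γ ∈ _
    rw [e]; exact L_mul_mem_right (le_L _ _ hz) (rep_le q hγ)
  choose γ g hG hγ hg using h1
  refine Finite.of_injective (fun q : Q σ m' => (φ ((pr O' (γ q))⁻¹ * rep q),
    Ideal.Quotient.mk (idl m') (g q), SignType.sign (σ (γ q)))) ?_
  intro q r e
  simp only [Prod.mk.injEq] at e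
  obtain ⟨e1, e2, e3⟩ := e
  obtain ⟨l, hl, hlσ, hd⟩ := hφ _ (hG q) _ (hG r) e1
  rw [Ideal.Quotient.eq, mem_idl] at e2
  have e4 := (sign_eq_iff_div_pos ((map_ne_zero σ).2 (γ q).ne_zero)
    ((map_ne_zero σ).2 (γ r).ne_zero)).1 e3
  refine rep_inj ⟨γ r * l * (γ q)⁻¹, ?_, ?_, fun x hx => ?_⟩
  · rw [map_mul, map_mul, map_inv, mul_assoc, mul_assoc, ← hd]; group
  · have := mul_pos e4 hlσ
    simp only [Units.val_mul, Units.val_inv_eq_inv_val, map_mul, map_inv₀]
    linarith [this, mul_right_comm (σ (γ r)) (σ l) (σ (γ q))⁻¹]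
  · have h3 : ((γ q)⁻¹ : Kˣ) * x ∈ L m' 1 := by
      apply (hG q).1
      rw [← map_inv]
      exact mem_pr_mul.2 ⟨x, hx, rfl⟩
    have e : (((γ r * l * (γ q)⁻¹ : Kˣ) : K) - 1) * x =
        ((γ r : K) * ((l : K) - 1) + ((γ r : K) - g r) - ((γ q : K) - g q)
          - (((g q - g r : O') : K))) * (((γ q)⁻¹ : Kˣ) * x) := by
      have : (γ q : K) * (((γ q)⁻¹ : Kˣ) : K) = 1 := by simp
      push_cast
      simp only [Units.val_inv_eq_inv_val] at this
      linear_combination x * this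
    rw [e]
    refine L_mul_mem_right ?_ h3
    exact Submodule.sub_mem _ (Submodule.sub_mem _
      (Submodule.add_mem _ (L_mul_mem_left (hγ r) hl) (hg r)) (hg q)) (le_L _ _ e2)

/-- the fibre of a class over an ideal of the larger ring -/
def Fib (σ : K →+* ℝ) (m : Submodule O K) (h : Pair m1 m') (a : (Submodule O K)ˣ)
    (b' : (Submodule O' K)ˣ) : Set (Submodule O K)ˣ :=
  {b | NF σ m a b ∧ (b : Submodule O K) ≤ L m1 1 ∧ exU h.le b = b'}

/-- the multiplicity -/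
noncomputable def tt (σ : K →+* ℝ) (m : Submodule O K) (h : Pair m1 m') (a : (Submodule O K)ˣ)
    (b' : (Submodule O' K)ˣ) : ℕ := (Fib σ m h a b').ncard

lemma finite_Fib (h : Pair m1 m') (a : (Submodule O K)ˣ) (b' : (Submodule O' K)ˣ) :
    (Fib σ m h a b').Finite :=
  (h.finite_fiber b').subset fun _ hb => hb.2.2

lemma tt_le_of_NF (h : Pair m1 m') (hm : m1 ≤ m) (a : (Submodule O K)ˣ)
    {b₁ b₂ : (Submodule O' K)ˣ} (hb : NF σ m' b₁ b₂) : tt σ m h a b₁ ≤ tt σ m h a b₂ := by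
  obtain ⟨l, rfl, hl, hx⟩ := hb
  refine Set.ncard_le_ncard_of_injOn (fun b => pr O l * b) ?_ ?_ (finite_Fib h a _)
  · rintro b ⟨h1, h2, rfl⟩
    have h3 : NF σ m1 b (pr O l * b) :=
      ⟨l, rfl, hl, fun x hx' => h.mem_LL.2 (hx x (mem_ex hx'))⟩
    refine ⟨h1.trans ⟨l, rfl, hl, fun x hx' => L_mono hm hm (h.mem_LL.2 (hx x (mem_ex hx')))⟩,
      h3.le_L h.g1.le h2, by rw [map_mul, exU_pr]⟩
  · intro b _ c _ e
    exact mul_left_cancel e

lemma tt_of_NF (h : Pair m1 m') (hm : m1 ≤ m) (a : (Submodule O K)ˣ)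
    {b₁ b₂ : (Submodule O' K)ˣ} (hb : NF σ m' b₁ b₂) : tt σ m h a b₁ = tt σ m h a b₂ :=
  le_antisymm (tt_le_of_NF h hm a hb) (tt_le_of_NF h hm a hb.symm)

lemma tt_le_mul (h : Pair m1 m') (hm : m1 ≤ m) (a : (Submodule O K)ˣ) (b' : (Submodule O' K)ˣ)
    {B : (Submodule O K)ˣ} (hB : B ∈ G m1) :
    tt σ m h a b' ≤ tt σ m h (a * B) (b' * exU h.le B) := by
  refine Set.ncard_le_ncard_of_injOn (fun b => b * B) ?_ ?_ (finite_Fib h _ _)
  · rintro b ⟨h1, h2, rfl⟩
    exact ⟨h1.mul_right (G_mono hm hB).1, by rw [Units.val_mul]; exact mul_le_L1 h2 hB.1,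
      by rw [map_mul]⟩
  · intro b _ c _ e
    exact mul_right_cancel e

lemma tt_mul (h : Pair m1 m') (hm : m1 ≤ m) (a : (Submodule O K)ˣ) (b' : (Submodule O' K)ˣ)
    {B : (Submodule O K)ˣ} (hB : B ∈ G m1) :
    tt σ m h (a * B) (b' * exU h.le B) = tt σ m h a b' := by
  refine le_antisymm ?_ (tt_le_mul h hm a b' hB)
  simpa using tt_le_mul (σ := σ) h hm (a * B) (b' * exU h.le B) ((G m1).inv_mem hB)

lemma tt_congr (h : Pair m1 m') {a₁ a₂ : (Submodule O K)ˣ} (ha : NF σ m a₁ a₂)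
    (b' : (Submodule O' K)ˣ) : tt σ m h a₁ b' = tt σ m h a₂ b' := by
  unfold tt
  congr 1
  ext b
  exact ⟨fun hb => ⟨ha.symm.trans hb.1, hb.2⟩, fun hb => ⟨ha.trans hb.1, hb.2⟩⟩

lemma cls_congr (h : Good m) {a₁ a₂ : (Submodule O K)ˣ} (h1 : (a₁ : Submodule O K) ≤ L m 1)
    (ha : NF σ m a₁ a₂) : cls σ m a₁ = cls σ m a₂ := by
  ext b
  rw [mem_cls h h1, mem_cls h (ha.le_L h.le h1)]
  exact ⟨fun hb => ha.symm.trans hb, fun hb => ha.trans hb⟩

lemma zeta_eq [Fintype (Q σ m')] (h : Pair m1 m') (hm : m1 ≤ m) (hg : Good m)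
    {a : (Submodule O K)ˣ} (ha : (a : Submodule O K) ≤ L m 1) (s : ℂ)
    (hs : Summable (Set.indicator {b : (Submodule O' K)ˣ | (b : Submodule O' K) ≤ 1}
      fun b => ‖((nm (b : Submodule O' K) : ℕ) : ℂ) ^ (-s)‖)) :
    zeta (cls σ m a) s = ∑ q : Q σ m', (tt σ m h a (rep q) : ℂ) * zeta (cls σ m' (rep q)) s := by
  classical
  let X := {b : (Submodule O K)ˣ // b ∈ cls σ m a ∧ (b : Submodule O K) ≤ 1}
  let π : X → (Submodule O' K)ˣ := fun b => exU h.le b.1
  let f : (Submodule O' K)ˣ → ℂ := fun b => ((nm (b : Submodule O' K) : ℕ) : ℂ) ^ (-s)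
  have hcard : ∀ y, Finite {x : X // π x = y} ∧ Nat.card {x : X // π x = y} =
      if (y : Submodule O' K) ≤ 1 then tt σ m h a y else 0 := by
    intro y
    by_cases hy : (y : Submodule O' K) ≤ 1
    · have e : {x : X // π x = y} ≃ Fib σ m h a y :=
        { toFun := fun x => ⟨x.1.1, (mem_cls hg ha).1 x.1.2.1, x.1.2.2.trans (le_L _ _), x.2⟩
          invFun := fun b => ⟨⟨b.1, (mem_cls hg ha).2 b.2.1,
            h.le_one (by rw [← exU_val h.le, b.2.2.2]; exact hy) b.2.2.1⟩, b.2.2.2⟩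
          left_inv := fun _ => rfl
          right_inv := fun _ => rfl }
      have := (finite_Fib (σ := σ) (m := m) h a y).to_subtype
      rw [if_pos hy, Nat.card_congr e]
      exact ⟨Finite.of_equiv _ e.symm, rfl⟩
    · have : IsEmpty {x : X // π x = y} := ⟨fun x => hy (by
        rw [← x.2]; exact h.ex_le_one x.1.2.2)⟩
      rw [if_neg hy]
      exact ⟨inferInstance, Nat.card_of_isEmpty⟩
  have hdec : ∀ y : (Submodule O' K)ˣ, ∀ g : (Submodule O' K)ˣ → ℂ,
      (Nat.card {x : X // π x = y} : ℂ) * g y = ∑ q : Q σ m', (tt σ m h a (rep q) : ℂ) *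
        Set.indicator {b | b ∈ cls σ m' (rep q) ∧ (b : Submodule O' K) ≤ 1} g y := by
    intro y g
    rw [(hcard y).2]
    by_cases hy : (y : Submodule O' K) ≤ 1
    · obtain ⟨q, hq⟩ := exists_rep (σ := σ) (hy.trans (le_L m' 1))
      rw [if_pos hy, Finset.sum_eq_single q]
      · rw [Set.indicator_of_mem (s := {b | b ∈ cls σ m' (rep q) ∧ (b : Submodule O' K) ≤ 1})
          ⟨(mem_cls h.g' (rep_le q)).2 hq, hy⟩, tt_of_NF h hm a hq]
      · intro r _ hr
        rw [Set.indicator_of_notMem, mul_zero]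
        rintro ⟨h1, -⟩
        exact hr (rep_inj (((mem_cls h.g' (rep_le r)).1 h1).trans hq.symm))
      · simp
    · rw [if_neg hy]
      simp only [Nat.cast_zero, zero_mul]
      refine (Finset.sum_eq_zero fun q _ => ?_).symm
      rw [Set.indicator_of_notMem, mul_zero]
      exact fun h1 => hy h1.2
  have hs1 : ∀ q : Q σ m', Summable
      (Set.indicator {b | b ∈ cls σ m' (rep q) ∧ (b : Submodule O' K) ≤ 1} f) := by
    intro q
    refine Summable.of_norm_bounded hs fun y => ?_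
    by_cases hy : y ∈ {b | b ∈ cls σ m' (rep q) ∧ (b : Submodule O' K) ≤ 1}
    · rw [Set.indicator_of_mem hy, Set.indicator_of_mem
        (s := {b : (Submodule O' K)ˣ | (b : Submodule O' K) ≤ 1}) hy.2]
    · rw [Set.indicator_of_notMem hy, norm_zero]
      exact Set.indicator_nonneg (fun _ _ => norm_nonneg _) _
  have hs2 : Summable fun y => (Nat.card {x : X // π x = y} : ℝ) * ‖f y‖ := by
    have h1 : Summable fun y => (Nat.card {x : X // π x = y} : ℂ) * f y := by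
      simp only [hdec]
      exact summable_sum fun q _ => (hs1 q).mul_left _
    refine h1.norm.congr fun y => ?_
    rw [norm_mul, Complex.norm_natCast]
  have e1 : zeta (cls σ m a) s = ∑' x : X, f (π x) := by
    refine tsum_congr fun x => ?_
    simp only [f, π]
    rw [exU_val, h.nm_ex x.2.2]
  rw [e1, tsum_fiber_count π f (fun y => (hcard y).1) hs2]
  simp only [hdec]
  rw [Summable.tsum_finsetSum fun q _ => (hs1 q).mul_left _]
  refine Finset.sum_congr rfl fun q _ => ?_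
  rw [tsum_mul_left, ← tsum_subtype]
  rfl

/-- the identity for the differenced zeta functions -/
lemma Z_eq [Fintype (Q σ m')] (h : Pair m1 m') (hm : m1 ≤ m) (hg : Good m)
    {a : (Submodule O K)ˣ} (ha : (a : Submodule O K) ≤ L m 1) (s : ℂ)
    (hs : Summable (Set.indicator {b : (Submodule O' K)ˣ | (b : Submodule O' K) ≤ 1}
      fun b => ‖((nm (b : Submodule O' K) : ℕ) : ℂ) ^ (-s)‖)) [CharZero K] :
    zeta (cls σ m a) s - zeta (clsR σ m a) s = ∑ q : Q σ m', (tt σ m h a (rep q) : ℂ) *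
      (zeta (cls σ m' (rep q)) s - zeta (clsR σ m' (rep q)) s) := by
  obtain ⟨N, hN, hNm⟩ := h.g'.nat
  have hN1 : (1 : ℝ) ≤ N := by exact_mod_cast hN
  have hσ : 0 < σ (2 * (N : K) - 1) := by
    simp only [map_sub, map_mul, map_natCast, map_one, map_ofNat]; linarith
  have h0 : 2 * (N : K) - 1 ≠ 0 := fun e => by rw [e, map_zero] at hσ; exact lt_irrefl _ hσ
  set ρ : Kˣ := Units.mk0 _ h0 with hρ
  have hρ' : (ρ : K) + 1 ∈ L m' m' := by
    apply le_L
    have e : (ρ : K) + 1 = N + N := by rw [hρ, Units.val_mk0]; ring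
    rw [e]; exact m'.add_mem hNm hNm
  have hρ1 : (ρ : K) + 1 ∈ L m1 m1 := h.mem_LL.2 hρ'
  have hG1 : pr O ρ ∈ G m1 :=
    pr_mem_G h.g1.le (e := -1) (by ring) (O.neg_mem O.one_mem) (by simpa using hρ1)
  have hG' : pr O' ρ ∈ G m' := by rw [← exU_pr h.le]; exact h.exU_mem_G hG1
  obtain ⟨e, he⟩ := exists_perm (σ := σ) hG'
  have ha2 : ((a * pr O ρ : (Submodule O K)ˣ) : Submodule O K) ≤ L m 1 := by
    rw [Units.val_mul]; exact mul_le_L1 ha (G_mono hm hG1).1
  rw [clsR_eq hg ha (L_mono hm hm hρ1) hσ, zeta_eq h hm hg ha s hs, zeta_eq h hm hg ha2 s hs,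
    ← Equiv.sum_comp e (fun q => (tt σ m h (a * pr O ρ) (rep q) : ℂ) * zeta (cls σ m' (rep q)) s),
    ← Finset.sum_sub_distrib]
  refine Finset.sum_congr rfl fun q _ => ?_
  rw [tt_of_NF h hm _ (he q), cls_congr h.g' (rep_le _) (he q), ← exU_pr h.le, tt_mul h hm _ _ hG1,
    clsR_eq h.g' (rep_le q) hρ' hσ, exU_pr, mul_sub]

end Pool.Agent.H897Z.MS
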