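import Pool.Agent.H897Z.MS.Ord

open NumberField

namespace Pool.Agent.H897Z.MS

variable {K : Type} [Field K] {O : Subalgebra ℤ K} {σ : K →+* ℝ} {m m1 : Submodule O K}

lemma NF_one_iff {c : (Submodule O K)ˣ} :
    NF σ m 1 c ↔ ∃ l : Kˣ, (l : K) - 1 ∈ L m m ∧ 0 < σ l ∧ c = pr O l := by
  constructor
  · rintro ⟨l, rfl, h1, h2⟩
    exact ⟨l, by simpa using h2 1 (mem_one'.2 O.one_mem), h1, by simp⟩
  · rintro ⟨l, h1, h2, rfl⟩
    simpa using NF.of_P (σ := σ) (a := 1) (by simpa using le_L m 1) h1 h2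

lemma G_of_NF_one (hm : m ≤ 1) {c : (Submodule O K)ˣ} (h : NF σ m 1 c) : c ∈ G m := by
  obtain ⟨l, h1, -, rfl⟩ := NF_one_iff.1 h
  exact pr_mem_G hm (e := 1) (by ring) O.one_mem h1

/-- the ray as a subgroup -/
def PS (σ : K →+* ℝ) {m : Submodule O K} (hm : m ≤ 1) : Subgroup (Submodule O K)ˣ where
  carrier := {c | NF σ m 1 c}
  one_mem' := NF.refl _
  mul_mem' := by
    intro a b ha hb
    have h1 := NF.mul_right ha (G_of_NF_one hm hb).1
    rw [one_mul] at h1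
    exact NF.trans hb h1
  inv_mem' := by
    intro a ha
    have h1 := NF.mul_right ha (G_of_NF_one hm ha).2
    rw [one_mul, mul_inv_cancel] at h1
    exact h1.symm

lemma mem_PS (hm : m ≤ 1) {c : (Submodule O K)ˣ} : c ∈ PS σ hm ↔ c ∈ Pm σ m := by
  rw [mem_Pm hm]; exact NF_one_iff

lemma NF_mul_PS (hm : m ≤ 1) {a c : (Submodule O K)ˣ} (ha : (a : Submodule O K) ≤ L m 1)
    (hc : c ∈ PS σ hm) : NF σ m a (a * c) := by
  have h1 := NF.mul_right (show NF σ m 1 c from hc) ha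
  rwa [one_mul, ucomm] at h1

lemma exists_sign {a b N : ℝ} (ha : a ≠ 0) (hN : 1 ≤ N) : ∃ t : ℤ, 0 < a * (b + N * t) := by
  obtain ⟨n, hn⟩ := exists_nat_gt |b|
  have h1 := le_abs_self b
  have h2 := neg_abs_le b
  have h3 : (0 : ℝ) ≤ n := Nat.cast_nonneg n
  rcases lt_or_gt_of_ne ha with h | h
  · refine ⟨-n, mul_pos_of_neg_of_neg h ?_⟩
    push_cast; nlinarith
  · refine ⟨n, mul_pos h ?_⟩
    push_cast; nlinarith

lemma exists_dec (h1 : Good m1) (hg : Good m) (hm : m1 ≤ m) {B : (Submodule O K)ˣ} (hB : B ∈ G m) :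
    ∃ C ∈ G m1, B * C⁻¹ ∈ PS σ hg.le := by
  obtain ⟨γ, -, hc⟩ := h1.exists_gen B
  have hγG : pr O γ ∈ G m := by
    have := (G m).mul_mem hB ((G m).inv_mem (G_mono hm hc))
    have e : B * ((pr O γ)⁻¹ * B)⁻¹ = pr O γ := by group
    rwa [e] at this
  have hγ : (γ : K) ∈ L m 1 := hγG.1 (Submodule.mem_span_singleton_self _)
  have hγ' : ((γ⁻¹ : Kˣ) : K) ∈ L m 1 := by
    apply hγG.2
    rw [← map_inv]; exact Submodule.mem_span_singleton_self _
  obtain ⟨z, hz, hzO, hr⟩ := hγ'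
  obtain ⟨w, hw, hwO, hγw⟩ := hγ
  set r : O := ⟨_, mem_one'.1 hr⟩ with hrdef
  have hγr : (γ : K) * r = 1 - z := by
    change (γ : K) * ((1 - z) * ((γ⁻¹ : Kˣ) : K)) = _
    simp only [Units.val_inv_eq_inv_val]
    field_simp
  have := h1.finite_quot
  obtain ⟨i, d, hd, hid⟩ : ∃ i d : ℕ, 0 < d ∧ r ^ i * (1 - r ^ d) ∈ idl m1 := by
    obtain ⟨i, j, hij, e⟩ := Finite.exists_ne_map_eq_of_infinite
      (fun n : ℕ => Ideal.Quotient.mk (idl m1) (r ^ n))
    rcases lt_or_gt_of_ne hij with h | h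
    · refine ⟨i, j - i, by omega, ?_⟩
      rw [mul_sub, mul_one, ← pow_add, Nat.add_sub_cancel' h.le]
      exact Ideal.Quotient.eq.1 e
    · refine ⟨j, i - j, by omega, ?_⟩
      rw [mul_sub, mul_one, ← pow_add, Nat.add_sub_cancel' h.le]
      exact Ideal.Quotient.eq.1 e.symm
  have hγL : (γ : K) ∈ L m 1 := ⟨w, hw, hwO, hγw⟩
  have he : ((1 - r ^ d : O) : K) ∈ L m m := by
    have key : ∀ k : ℕ, ∀ x : K, (r : K) ^ k * x ∈ L m m → x ∈ L m m := by
      intro k
      induction k with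
      | zero => intro x hx; simpa using hx
      | succ k ih =>
        intro x hx
        have h2 : (r : K) * x ∈ L m m := ih _ (by rw [← mul_assoc, ← pow_succ]; exact hx)
        have h3 := L_mul_mem_left hγL h2
        rw [← mul_assoc, hγr] at h3
        exact L_L ⟨z, hz, hzO, h3⟩
    refine key i _ (le_L _ _ (hm ?_))
    have := mem_idl.1 hid
    simpa using this
  obtain ⟨N, hN, hNm⟩ := h1.nat
  obtain ⟨t, ht⟩ := exists_sign (a := σ γ) (b := σ ((r + (1 - r ^ d) : O) : K)) (N := N)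
    ((map_ne_zero σ).2 γ.ne_zero) (by exact_mod_cast hN)
  have hNt : (N : K) * t ∈ m1 := by rw [mul_comm]; exact mul_mem' (intCast_mem O t) hNm
  set u : O := r + (1 - r ^ d) + N * t with hu
  have huK : (u : K) = r + ((1 - r ^ d : O) : K) + N * t := by rw [hu]; push_cast; ring
  have htop : Ideal.span {u} ⊔ idl m1 = ⊤ := by
    by_contra hc'
    obtain ⟨M, hM, hMle⟩ := Ideal.exists_le_maximal _ hc'
    have h2 : u ∈ M := hMle (Submodule.mem_sup_left (Ideal.mem_span_singleton_self u))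
    have h3 : (N * t : O) ∈ M := hMle (Submodule.mem_sup_right (mem_idl.2 (by simpa using hNt)))
    have h4 : r + (1 - r ^ d) ∈ M := by simpa [hu] using M.sub_mem h2 h3
    have h5 : r ∈ M := by
      rcases hM.isPrime.mem_or_mem (hMle (Submodule.mem_sup_right hid)) with h | h
      · exact hM.isPrime.mem_of_pow_mem _ h
      · simpa using M.sub_mem h4 h
    have h6 : 1 - r ^ d ∈ M := by simpa using M.sub_mem h4 h5
    have h7 := M.add_mem h6 (M.pow_mem_of_mem h5 d hd)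
    exact hM.ne_top ((Ideal.eq_top_iff_one _).2 (by simpa using h7))
  obtain ⟨s, hs, y, hy, hsy⟩ := Submodule.mem_sup.1 ((Ideal.eq_top_iff_one _).1 htop)
  obtain ⟨v, rfl⟩ := Ideal.mem_span_singleton'.1 hs
  have hsy' : (v : K) * u = 1 - y := by
    have : (v : K) * u + y = 1 := by exact_mod_cast congrArg Subtype.val hsy
    linear_combination this
  have hu0 : (u : K) ≠ 0 := by
    intro h0
    rw [h0, mul_zero] at hsy'
    exact one_sub_ne_zero h1.le h1.ne (mem_idl.1 hy) hsy'.symm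
  have hule : ((pr O (Units.mk0 _ hu0) : (Submodule O K)ˣ) : Submodule O K) ≤ 1 := by
    rw [pr_val, Submodule.span_singleton_le_iff_mem]; exact mem_one'.2 u.2
  have huG : pr O (Units.mk0 _ hu0) ∈ G m1 :=
    mem_G_of_coprime h1.le hule ((sup_eq_one_iff h1.le hule).2
      ⟨y, mem_idl.1 hy, mem_span1.2 ⟨v, v.2, hsy'⟩⟩)
  refine ⟨(pr O (Units.mk0 _ hu0))⁻¹ * ((pr O γ)⁻¹ * B), (G m1).mul_mem ((G m1).inv_mem huG) hc,
    NF_one_iff.2 ⟨γ * Units.mk0 _ hu0, ?_, ?_, by rw [map_mul]; group⟩⟩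
  · have e : ((γ * Units.mk0 _ hu0 : Kˣ) : K) - 1 =
        -z + γ * ((1 - r ^ d : O) : K) + γ * (N * t) := by
      rw [Units.val_mul, Units.val_mk0, huK]
      linear_combination hγr
    rw [e]
    exact Submodule.add_mem _ (Submodule.add_mem _ (le_L _ _ (m.neg_mem hz))
      (L_mul_mem_left hγL he)) (L_mul_mem_left hγL (le_L _ _ (hm hNt)))
  · rw [Units.val_mul, Units.val_mk0, map_mul]
    have e : σ (u : K) = σ ((r + (1 - r ^ d) : O) : K) + N * t := by
      rw [huK]; push_cast; simp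
    rw [e]; exact ht

lemma mem_of_L_of_mem (hm : m ≤ 1) {x : K} (hx : x ∈ L m m) (hO : x ∈ O) : x ∈ m := by
  obtain ⟨z, hz, -, h⟩ := hx
  have := m.add_mem h (mul_mem' hO hz)
  have e : (1 - z) * x + x * z = x := by ring
  rwa [e] at this

end Pool.Agent.H897Z.MS
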