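import Mathlib

/-!
Definitions for the Monoid Stark assertion `MS(O, m)` for an order `O` of a number field
`K` embedded in the reals through `algebraMap K ℝ` (the embedding `σ₁`), with second real
embedding `σ₂`.  Fractional `O`-ideals are `O`-submodules of `K`; the group `J*(O)` of invertible
fractional ideals is the unit group `(Submodule O K)ˣ`, and `1 : Submodule O K` is `O` itself.
-/

open NumberField

namespace Pool.Agent.H897Z.MS

variable {K : Type} [Field K]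

/-- `O` is an order of `K`: a subring, finitely generated over `ℤ`, spanning `K` over `ℚ`. -/
def IsOrder [NumberField K] (O : Subalgebra ℤ K) : Prop :=
  Module.Finite ℤ O ∧ Submodule.span ℚ (O : Set K) = ⊤

variable {O : Subalgebra ℤ K}

/-- `S_m`: the `α ∈ O` with `αO + m = O`. -/
def Sm (m : Submodule O K) : Set K :=
  {α | α ∈ O ∧ Submodule.span O {α} ⊔ m = 1}

/-- `M R` where `R = O[S_m⁻¹]`: the quotients `x / s` with `x ∈ M`, `s ∈ S_m`.
So `loc m 1 = R` and `loc m m = m R`. -/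
def loc (m M : Submodule O K) : Set K :=
  {x | ∃ s ∈ Sm m, s * x ∈ M}

/-- the invertible fractional ideals `a` with `a R ⊆ R`. -/
def Jflat (m : Submodule O K) : Set (Submodule O K)ˣ :=
  {a | ((a : Submodule O K) : Set K) ⊆ loc m 1}

/-- the relation `a ∼ b` that defines the ray class monoid of modulus `m ∞₂`. -/
def Rel (σ₂ : K →+* ℝ) (m : Submodule O K) (a b : (Submodule O K)ˣ) : Prop :=
  ∃ c ∈ Jflat m, ∃ α ∈ loc m 1, ∃ β ∈ loc m 1,
    (a : Submodule O K) = Submodule.span O {α} * (c : Submodule O K) ∧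
    (b : Submodule O K) = Submodule.span O {β} * (c : Submodule O K) ∧
    α - β ∈ loc m m ∧ SignType.sign (σ₂ α) = SignType.sign (σ₂ β)

/-- the class `A = [a]` of the ray class monoid, as a set of ideals. -/
def cls (σ₂ : K →+* ℝ) (m : Submodule O K) (a : (Submodule O K)ˣ) : Set (Submodule O K)ˣ :=
  {b | b ∈ Jflat m ∧ Rel σ₂ m a b}

/-- the class `R A` for `A = [a]`, where `R` is the class of the `αO` with `α ≡ -1 mod m` and
`σ₂ α > 0`. -/
def clsR (σ₂ : K →+* ℝ) (m : Submodule O K) (a : (Submodule O K)ˣ) : Set (Submodule O K)ˣ :=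
  {b | b ∈ Jflat m ∧ ∃ (α : K) (u : (Submodule O K)ˣ), (u : Submodule O K) = Submodule.span O {α} ∧
    α + 1 ∈ loc m m ∧ 0 < σ₂ α ∧ Rel σ₂ m (u * a) b}

/-- the index `[O : a]`. -/
noncomputable def nm (a : Submodule O K) : ℕ :=
  a.toAddSubgroup.relIndex (1 : Submodule O K).toAddSubgroup

/-- `ζ(s, A)`: the sum of `[O : a]^(-s)` over the `a ∈ A` with `a ⊆ O`. -/
noncomputable def zeta (A : Set (Submodule O K)ˣ) (s : ℂ) : ℂ :=
  ∑' a : {a : (Submodule O K)ˣ // a ∈ A ∧ (a : Submodule O K) ≤ 1},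
    ((nm (a.1 : Submodule O K) : ℕ) : ℂ) ^ (-s)

/-- `J*_m(O)`: the `a₁ a₂⁻¹` with `a₁, a₂` integral, invertible and coprime to `m`. -/
def Jm (m : Submodule O K) : Set (Submodule O K)ˣ :=
  {a | ∃ a₁ a₂ : (Submodule O K)ˣ, (a₁ : Submodule O K) ≤ 1 ∧ (a₂ : Submodule O K) ≤ 1 ∧
    (a₁ : Submodule O K) ⊔ m = 1 ∧ (a₂ : Submodule O K) ⊔ m = 1 ∧ a = a₁ * a₂⁻¹}

/-- `P_{m ∞₂}(O)`: the `αO` with `α ≡ 1 mod m` (that is `α - 1 ∈ m R`) and `σ₂ α > 0`. -/
def Pm (σ₂ : K →+* ℝ) (m : Submodule O K) : Set (Submodule O K)ˣ :=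
  {a | ∃ α : K, α - 1 ∈ loc m m ∧ 0 < σ₂ α ∧ (a : Submodule O K) = Submodule.span O {α}}

/-- `(m : O_K)`: the `x ∈ K` with `x O_K ⊆ m`, as a module over the maximal order
`O_K = integralClosure ℤ K`. -/
def colon (m : Submodule O K) : Submodule (integralClosure ℤ K) K where
  carrier := {x | ∀ y ∈ integralClosure ℤ K, x * y ∈ m}
  add_mem' := fun {a b} ha hb y hy => by
    rw [add_mul]; exact m.add_mem (ha y hy) (hb y hy)
  zero_mem' := fun y _ => by rw [zero_mul]; exact m.zero_mem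
  smul_mem' := fun r x hx y hy => by
    have h := hx ((r : K) * y) ((integralClosure ℤ K).mul_mem r.2 hy)
    have e : (r • x) * y = x * ((r : K) * y) := by
      change ((r : K) * x) * y = _
      ring
    rw [e]; exact h

/-- `p` is a prime of `O_K` coprime to `(m : O_K)`. -/
def GoodPrime (m : Submodule O K) (p : Ideal (𝓞 K)) : Prop :=
  p.IsPrime ∧ ∃ x ∈ p, 1 - (x : K) ∈ colon m

/-- `p ∩ O`, as a subset of `K`. -/
def capO (O : Subalgebra ℤ K) (p : Ideal (𝓞 K)) : Set K :=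
  {x | x ∈ O ∧ ∃ y ∈ p, (y : K) = x}

variable [Algebra K ℝ]

/-- `H ⊆ ℝ` is the ray class field of `O` of modulus `m ∞₂` and `Art` is its Artin map on
`J*_m(O)`: `H / K` is finite abelian, the primes `p` coprime to `(m : O_K)` are unramified, such a
`p` splits completely iff `p ∩ O = πO` with `π ∈ O`, `π ≡ 1 mod m`, `σ₂ π > 0`; `Art` is a
homomorphism from `J*_m(O)` onto the Galois group with kernel `P_{m ∞₂}(O)` that sends `p ∩ O` to
the Frobenius of `p`. -/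
structure IsRCF (σ₂ : K →+* ℝ) (m : Submodule O K) (H : IntermediateField K ℝ)
    (Art : (Submodule O K)ˣ → (H ≃ₐ[K] H)) : Prop where
  fin : FiniteDimensional K H
  ab : IsAbelianGalois K H
  unram : ∀ p : Ideal (𝓞 K), GoodPrime m p → ∀ P : Ideal (𝓞 H), P.IsPrime → P.LiesOver p →
    P.ramificationIdx (𝓞 K) = 1
  split : ∀ p : Ideal (𝓞 K), GoodPrime m p →
    ((∀ P : Ideal (𝓞 H), P.IsPrime → P.LiesOver p →
        P.ramificationIdx (𝓞 K) = 1 ∧ P.inertiaDeg (𝓞 K) = 1) ↔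
      ∃ π ∈ O, capO O p = (Submodule.span O {π} : Submodule O K) ∧ π - 1 ∈ m ∧ 0 < σ₂ π)
  mul : ∀ a ∈ Jm m, ∀ b ∈ Jm m, Art (a * b) = Art a * Art b
  surj : ∀ g : H ≃ₐ[K] H, ∃ a ∈ Jm m, Art a = g
  ker : ∀ a ∈ Jm m, (Art a = 1 ↔ a ∈ Pm σ₂ m)
  frob : ∀ p : Ideal (𝓞 K), GoodPrime m p → ∀ a : (Submodule O K)ˣ,
    ((a : Submodule O K) : Set K) = capO O p → ∀ P : Ideal (𝓞 H), P.IsPrime → P.LiesOver p →
      ∀ x : 𝓞 H, Art a • x - x ^ Nat.card (𝓞 K ⧸ p) ∈ P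

/-- The Monoid Stark assertion for `(O, m)`: in the ray class field `H` with Artin map `Art` there
are units `ε_A`, one for each class `A = [a]` of the ray class monoid, with
(i) `ε_A = exp (-Z'(0, A))`, `Z(s, A) = ζ(s, A) - ζ(s, R A)` continued meromorphically;
(ii) `Art(B) ε_A = ε_{AB}`; (iii) `|τ ε_A| = 1` for `τ` above `σ₂`;
(iv) `H(√ε_A)` abelian over `K`. -/
def MonoidStark (σ₂ : K →+* ℝ) (m : Submodule O K) : Prop :=
  ∃ (H : IntermediateField K ℝ) (Art : (Submodule O K)ˣ → (H ≃ₐ[K] H)), IsRCF σ₂ m H Art ∧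
    ∃ ε : (Submodule O K)ˣ → (𝓞 H)ˣ,
      (∀ a ∈ Jflat m, ∀ b ∈ Jflat m, Rel σ₂ m a b → ε a = ε b) ∧
      ∀ a ∈ Jflat m,
        (∃ (F : ℂ → ℂ) (z : ℝ), MeromorphicOn F Set.univ ∧ AnalyticAt ℂ F 0 ∧
          (∀ s : ℂ, 1 < s.re → F s = zeta (cls σ₂ m a) s - zeta (clsR σ₂ m a) s) ∧
          deriv F 0 = (z : ℂ) ∧ (((ε a : 𝓞 H) : H) : ℝ) = Real.exp (-z)) ∧
        (∀ b ∈ Jm m, Art b ((ε a : 𝓞 H) : H) = ((ε (a * b) : 𝓞 H) : H)) ∧
        (∀ τ : H →+* ℂ, (∀ x : K, τ (algebraMap K H x) = (σ₂ x : ℂ)) →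
          ‖τ ((ε a : 𝓞 H) : H)‖ = 1) ∧
        IsAbelianGalois K
          (H ⊔ IntermediateField.adjoin K {Real.sqrt (((ε a : 𝓞 H) : H) : ℝ)} :
            IntermediateField K ℝ)

end Pool.Agent.H897Z.MS
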