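import Pool.Agent.H897Z.MS.Loc

open NumberField

namespace Pool.Agent.H897Z.MS

variable {K : Type} [Field K] {O O' : Subalgebra ℤ K}

/-- extension of a module to the larger ring -/
def ex (O' : Subalgebra ℤ K) (b : Submodule O K) : Submodule O' K := Submodule.span O' (b : Set K)

lemma mem_ex {b : Submodule O K} {x : K} (hx : x ∈ b) : x ∈ ex O' b := Submodule.subset_span hx

lemma ex_le {b : Submodule O K} {M : Submodule O' K} : ex O' b ≤ M ↔ ∀ x ∈ b, x ∈ M :=
  Submodule.span_le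

lemma ex_span (h : O ≤ O') (X : Set K) : ex O' (Submodule.span O X) = Submodule.span O' X := by
  refine le_antisymm (ex_le.2 fun x hx => ?_) (Submodule.span_le.2 fun x hx =>
    mem_ex (Submodule.subset_span hx))
  induction hx using Submodule.span_induction with
  | mem x hx => exact Submodule.subset_span hx
  | zero => exact Submodule.zero_mem _
  | add x y _ _ hx hy => exact Submodule.add_mem _ hx hy
  | smul r x _ hx => exact mul_mem' (h r.2) hx

/-- extension as a monoid homomorphism -/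
noncomputable def exH (h : O ≤ O') : Submodule O K →* Submodule O' K where
  toFun := ex O'
  map_one' := by
    rw [Submodule.one_eq_span, ex_span h, Submodule.one_eq_span]
  map_mul' a b := by
    conv_lhs => rw [Submodule.mul_eq_span_mul_set, ex_span h]
    rw [ex, ex, Submodule.span_mul_span]

/-- extension on invertible ideals -/
noncomputable def exU (h : O ≤ O') : (Submodule O K)ˣ →* (Submodule O' K)ˣ := Units.map (exH h)

lemma exU_val (h : O ≤ O') (b : (Submodule O K)ˣ) :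
    ((exU h b : (Submodule O' K)ˣ) : Submodule O' K) = ex O' (b : Submodule O K) := rfl

lemma exU_pr (h : O ≤ O') (l : Kˣ) : exU h (pr O l) = pr O' l :=
  Units.ext (by rw [exU_val, pr_val, ex_span h, pr_val])

/-- the same modulus seen over two rings -/
structure Pair (m1 : Submodule O K) (m' : Submodule O' K) : Prop where
  le : O ≤ O'
  iff : ∀ x, x ∈ m1 ↔ x ∈ m'
  g1 : Good m1
  g' : Good m'

variable {m1 : Submodule O K} {m' : Submodule O' K}

lemma Pair.memO (h : Pair m1 m') {z : K} (hz : z ∈ m') : z ∈ O :=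
  mem_one'.1 (h.g1.le ((h.iff z).2 hz))

lemma Pair.mem_LL (h : Pair m1 m') {x : K} : x ∈ L m1 m1 ↔ x ∈ L m' m' := by
  constructor
  · rintro ⟨z, hz, hzO, hx⟩
    exact ⟨z, (h.iff z).1 hz, h.le hzO, (h.iff _).1 hx⟩
  · rintro ⟨z, hz, -, hx⟩
    exact ⟨z, (h.iff z).2 hz, h.memO hz, (h.iff _).2 hx⟩

lemma Pair.mem_L1 (h : Pair m1 m') {x : K} (hx : x ∈ L m1 1) : x ∈ L m' 1 := by
  obtain ⟨z, hz, hzO, hx⟩ := hx
  exact ⟨z, (h.iff z).1 hz, h.le hzO, mem_one'.2 (h.le (mem_one'.1 hx))⟩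

lemma Pair.mul_ex (h : Pair m1 m') {b : Submodule O K} {x : K} (hx : x ∈ ex O' b) :
    ∀ z ∈ m', z * x ∈ b := by
  induction hx using Submodule.span_induction with
  | mem x hx => exact fun z hz => mul_mem' (h.memO hz) hx
  | zero => intro z _; simp
  | add x y _ _ hx hy => intro z hz; rw [mul_add]; exact b.add_mem (hx z hz) (hy z hz)
  | smul r x _ hx =>
    intro z hz
    have e : z * (r • x) = ((r : K) * z) * x := by
      change z * ((r : K) * x) = _
      ring
    rw [e]; exact hx _ (mul_mem' r.2 hz)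

lemma Pair.mem_of_ex_L (h : Pair m1 m') {b : Submodule O K} {x : K} (hx : x ∈ ex O' b)
    (hx' : x ∈ L m1 b) : x ∈ b := by
  obtain ⟨z, hz, -, h1⟩ := hx'
  have := b.add_mem h1 (h.mul_ex hx z ((h.iff z).1 hz))
  have e : (1 - z) * x + z * x = x := by ring
  rwa [e] at this

lemma Pair.ex_one (h : Pair m1 m') : ex O' (1 : Submodule O K) = 1 := (exH h.le).map_one

lemma Pair.le_one (h : Pair m1 m') {b : Submodule O K} (h1 : ex O' b ≤ 1) (h2 : b ≤ L m1 1) :
    b ≤ 1 := fun x hx =>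
  h.mem_of_ex_L (by rw [h.ex_one]; exact h1 (mem_ex hx)) (h2 hx)

lemma Pair.ex_le_one (h : Pair m1 m') {b : Submodule O K} (h1 : b ≤ 1) : ex O' b ≤ 1 :=
  ex_le.2 fun _ hx => mem_one'.2 (h.le (mem_one'.1 (h1 hx)))

lemma Pair.ex_le_L (h : Pair m1 m') {b : Submodule O K} (h2 : b ≤ L m1 1) : ex O' b ≤ L m' 1 :=
  ex_le.2 fun _ hx => h.mem_L1 (h2 hx)

lemma Pair.exU_mem_G (h : Pair m1 m') {c : (Submodule O K)ˣ} (hc : c ∈ G m1) :
    exU h.le c ∈ G m' :=
  ⟨h.ex_le_L hc.1, by rw [← map_inv]; exact h.ex_le_L hc.2⟩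

lemma Pair.eq_one_of_exU (h : Pair m1 m') {c : (Submodule O K)ˣ} (hc : c ∈ G m1)
    (e : exU h.le c = 1) : c = 1 := by
  have h1 : (c : Submodule O K) ≤ 1 :=
    h.le_one (by rw [← exU_val h.le, e, Units.val_one]) hc.1
  have h2 : ((c⁻¹ : (Submodule O K)ˣ) : Submodule O K) ≤ 1 :=
    h.le_one (by rw [← exU_val h.le, map_inv, e, inv_one, Units.val_one]) hc.2
  refine Units.ext (le_antisymm h1 ?_)
  calc ((1 : (Submodule O K)ˣ) : Submodule O K)
      = (c : Submodule O K) * ((c⁻¹ : (Submodule O K)ˣ) : Submodule O K) := by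
        rw [← Units.val_mul, mul_inv_cancel]
    _ ≤ (c : Submodule O K) * 1 := mul_le_mul' le_rfl h2
    _ = c := mul_one _

/-- restriction of scalars -/
def res (h : O ≤ O') (M : Submodule O' K) : Submodule O K where
  carrier := M
  add_mem' := M.add_mem
  zero_mem' := M.zero_mem
  smul_mem' := fun r _ hx => mul_mem' (h r.2) hx

lemma mem_res (h : O ≤ O') {M : Submodule O' K} {x : K} : x ∈ res h M ↔ x ∈ M := Iff.rfl

lemma Pair.contr (h : Pair m1 m') {a' : (Submodule O' K)ˣ} (ha : (a' : Submodule O' K) ≤ 1)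
    (hc : (a' : Submodule O' K) ⊔ m' = 1) :
    ∃ a : (Submodule O K)ˣ, (∀ x, x ∈ (a : Submodule O K) ↔ x ∈ O ∧ x ∈ (a' : Submodule O' K)) ∧
      exU h.le a = a' ∧ a ∈ G m1 := by
  obtain ⟨z, hz, hx⟩ := (sup_eq_one_iff h.g'.le ha).1 hc
  have hzO := h.memO hz
  set A : Submodule O K := 1 ⊓ res h.le (a' : Submodule O' K) with hA
  have memA : ∀ x, x ∈ A ↔ x ∈ O ∧ x ∈ (a' : Submodule O' K) := fun x => by
    rw [hA, Submodule.mem_inf, mem_one', mem_res]
  have hxA : 1 - z ∈ A := (memA _).2 ⟨O.sub_mem O.one_mem hzO, hx⟩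
  set D : Submodule O K :=
    1 ⊔ res h.le (((a'⁻¹ : (Submodule O' K)ˣ) : Submodule O' K) * m') with hD
  have hzA : ∀ w ∈ (a' : Submodule O' K), w * z ∈ A := fun w hw =>
    (memA _).2 ⟨h.memO (mul_mem' (mem_one'.1 (ha hw)) hz), by
      rw [mul_comm]; exact mul_mem' (h.le hzO) hw⟩
  have hAD : A * D = 1 := by
    refine le_antisymm (Submodule.mul_le.2 fun x hx y hy => ?_) (Submodule.one_le.2 ?_)
    · obtain ⟨u, hu, v, hv, rfl⟩ := Submodule.mem_sup.1 hy
      rw [mul_add]
      refine Submodule.add_mem _ (mem_one'.2 (O.mul_mem ((memA x).1 hx).1 (mem_one'.1 hu))) ?_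
      have h1 := Submodule.mul_mem_mul ((memA x).1 hx).2 ((mem_res h.le).1 hv)
      rw [← mul_assoc, ← Units.val_mul, mul_inv_cancel, Units.val_one, one_mul] at h1
      exact mem_one'.2 (h.memO h1)
    · have h1 : ∀ t ∈ (a' : Submodule O' K) * ((a'⁻¹ : (Submodule O' K)ˣ) : Submodule O' K),
          z * z * t ∈ A * D := by
        intro t ht
        refine Submodule.mul_induction_on ht (fun u hu v hv => ?_) (fun u v hu hv => ?_)
        · have e : z * z * (u * v) = (u * z) * (v * z) := by ring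
          rw [e]
          exact Submodule.mul_mem_mul (hzA u hu)
            (Submodule.mem_sup_right ((mem_res h.le).2 (Submodule.mul_mem_mul hv hz)))
        · rw [mul_add]; exact Submodule.add_mem _ hu hv
      have h2 := h1 1 (by
        rw [← Units.val_mul, mul_inv_cancel, Units.val_one]; exact mem_one'.2 O'.one_mem)
      have h3 : (1 - z) * (1 + z) ∈ A * D := Submodule.mul_mem_mul hxA
        (Submodule.mem_sup_left (mem_one'.2 (O.add_mem O.one_mem hzO)))
      have := Submodule.add_mem _ h2 h3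
      have e : z * z * 1 + (1 - z) * (1 + z) = 1 := by ring
      rwa [e] at this
  refine ⟨Units.mkOfMulEqOne A D hAD, memA, Units.ext ?_, ?_⟩
  · rw [exU_val, Units.val_mkOfMulEqOne]
    refine le_antisymm (ex_le.2 fun x hx => ((memA x).1 hx).2) fun w hw => ?_
    have e : w = w * (1 - z) + w * z := by ring
    rw [e]
    exact Submodule.add_mem _ (mul_mem' (mem_one'.1 (ha hw)) (mem_ex hxA)) (mem_ex (hzA w hw))
  · have hle : A ≤ 1 := inf_le_left
    exact mem_G_of_coprime h.g1.le hle ((sup_eq_one_iff h.g1.le hle).2 ⟨z, (h.iff z).2 hz, hxA⟩)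

lemma Pair.exU_surj (h : Pair m1 m') {c' : (Submodule O' K)ˣ} (hc : c' ∈ G m') :
    ∃ c ∈ G m1, exU h.le c = c' := by
  obtain ⟨a₁, a₂, h1, h2, h3, h4, rfl⟩ := (mem_Jm h.g'.le h.g'.ne).2 hc
  obtain ⟨b₁, -, e1, g1⟩ := h.contr h1 h3
  obtain ⟨b₂, -, e2, g2⟩ := h.contr h2 h4
  exact ⟨b₁ * b₂⁻¹, (G m1).mul_mem g1 ((G m1).inv_mem g2), by rw [map_mul, map_inv, e1, e2]⟩

lemma fg_one (hO : Module.Finite ℤ O) : (1 : Submodule O K).toAddSubgroup.FG := by
  have h1 : (Subalgebra.toSubmodule O).FG := by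
    rw [← Module.Finite.iff_fg]; exact hO
  rw [Submodule.fg_iff_addSubgroup_fg] at h1
  convert h1 using 1
  ext x
  simp only [Submodule.mem_toAddSubgroup, Subalgebra.mem_toSubmodule]
  exact mem_one'

lemma relIndex_ne_zero_of {A B : AddSubgroup K} (hA : A.FG) {N : ℕ} (hN : 0 < N)
    (h : ∀ x ∈ A, (N : K) * x ∈ B) : B.relIndex A ≠ 0 := by
  have h1 := AddSubgroup.isFiniteRelIndex_map_nsmulAddMonoidHom_of_fg hA hN.ne'
  have h2 : A.map (nsmulAddMonoidHom (α := K) N) ≤ B := by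
    rintro _ ⟨x, hx, rfl⟩
    simpa using h x hx
  have := AddSubgroup.isFiniteRelIndex_of_le_left A h2
  exact AddSubgroup.relIndex_ne_zero

lemma finite_between {A B : AddSubgroup K} (h : B.relIndex A ≠ 0) :
    {C : AddSubgroup K | B ≤ C ∧ C ≤ A}.Finite := by
  have h1 : (B.addSubgroupOf A).FiniteIndex := ⟨h⟩
  have h2 : Finite (A ⧸ B.addSubgroupOf A) := AddSubgroup.finite_quotient_of_finiteIndex
  let f : AddSubgroup K → Set (A ⧸ B.addSubgroupOf A) := fun C =>
    (fun x : A => (x : A ⧸ B.addSubgroupOf A)) '' {x : A | (x : K) ∈ C}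
  have key : ∀ C D : AddSubgroup K, C ≤ A → B ≤ D → f C = f D → C ≤ D := by
    intro C D hC hD e x hx
    have : ((⟨x, hC hx⟩ : A) : A ⧸ B.addSubgroupOf A) ∈ f D := e ▸ ⟨⟨x, hC hx⟩, hx, rfl⟩
    obtain ⟨y, hy, e'⟩ := this
    have h3 := QuotientAddGroup.eq.1 e'
    rw [AddSubgroup.mem_addSubgroupOf] at h3
    have := D.add_mem hy (hD h3)
    simpa using this
  refine Set.Finite.of_finite_image (f := f) (Set.toFinite _) ?_
  rintro C ⟨h1, h2⟩ D ⟨h3, h4⟩ e
  exact le_antisymm (key C D h2 h3 e) (key D C h4 h1 e.symm)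

lemma Pair.relIndex_ne (h : Pair m1 m') :
    (1 : Submodule O K).toAddSubgroup.relIndex (1 : Submodule O' K).toAddSubgroup ≠ 0 := by
  obtain ⟨N, hN, hNm⟩ := h.g'.nat
  refine relIndex_ne_zero_of (fg_one h.g'.fin) hN fun x hx => ?_
  rw [Submodule.mem_toAddSubgroup] at hx ⊢
  rw [mul_comm]
  exact mem_one'.2 (h.memO (mul_mem' (mem_one'.1 hx) hNm))

lemma Pair.finite_ker (h : Pair m1 m') : {u : (Submodule O K)ˣ | exU h.le u = 1}.Finite := by
  obtain ⟨N, hN, hNm⟩ := h.g'.nat
  have h1 : m'.toAddSubgroup.relIndex (1 : Submodule O' K).toAddSubgroup ≠ 0 :=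
    relIndex_ne_zero_of (fg_one h.g'.fin) hN fun x hx => by
      rw [Submodule.mem_toAddSubgroup] at hx ⊢
      rw [mul_comm]; exact mul_mem' (mem_one'.1 hx) hNm
  refine Set.Finite.of_finite_image
    (f := fun u : (Submodule O K)ˣ => (u : Submodule O K).toAddSubgroup)
    ((finite_between h1).subset ?_) ?_
  · rintro _ ⟨u, hu, rfl⟩
    have e : ex O' (u : Submodule O K) = 1 := by
      rw [← exU_val h.le, hu, Units.val_one]
    refine ⟨fun z hz => ?_, fun x hx => ?_⟩
    · have := h.mul_ex (b := (u : Submodule O K)) (x := 1)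
        (by rw [e]; exact mem_one'.2 O'.one_mem) z hz
      simpa using this
    · rw [Submodule.mem_toAddSubgroup] at hx ⊢
      rw [← e]; exact mem_ex hx
  · intro u _ v _ e
    exact Units.ext (Submodule.toAddSubgroup_injective e)

lemma Pair.finite_fiber (h : Pair m1 m') (b' : (Submodule O' K)ˣ) :
    {b : (Submodule O K)ˣ | exU h.le b = b'}.Finite := by
  by_cases hb : ∃ b₀, exU h.le b₀ = b'
  · obtain ⟨b₀, rfl⟩ := hb
    refine (h.finite_ker.image (fun u => u * b₀)).subset fun b hb => ⟨b * b₀⁻¹, ?_, by simp⟩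
    rw [Set.mem_setOf_eq] at hb ⊢
    rw [map_mul, map_inv, hb, mul_inv_cancel]
  · convert Set.finite_empty
    ext b
    simp only [Set.mem_setOf_eq, Set.mem_empty_iff_false, iff_false]
    exact fun e => hb ⟨b, e⟩

lemma Pair.nm_ex (h : Pair m1 m') {b : (Submodule O K)ˣ} (hb : (b : Submodule O K) ≤ 1) :
    nm (ex O' (b : Submodule O K)) = nm (b : Submodule O K) := by
  obtain ⟨γ, hγ, hG⟩ := h.g1.exists_gen b
  have hG' : pr O γ * b⁻¹ ∈ G m1 := by
    have := (G m1).inv_mem hG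
    rw [ucomm]; simpa using this
  have hle : ((pr O γ * b⁻¹ : (Submodule O K)ˣ) : Submodule O K) ≤ 1 := by
    intro x hx
    obtain ⟨y, hy, rfl⟩ := mem_pr_mul.1 hx
    exact mem_one'.2 (mul_inv_mem hγ hy)
  obtain ⟨z, hz, h1⟩ := (sup_eq_one_iff h.g1.le hle).1 (coprime_of_mem_G h.g1.le hle hG')
  obtain ⟨y, hy, hyz⟩ := mem_pr_mul.1 h1
  have hz' := (h.iff z).1 hz
  let f : K →+ K := AddMonoidHom.mulLeft (γ : K)
  have hf : Function.Injective f := fun a b e => mul_left_cancel₀ γ.ne_zero e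
  set A := (1 : Submodule O K).toAddSubgroup with hA
  set A' := (1 : Submodule O' K).toAddSubgroup with hA'
  set B := (b : Submodule O K).toAddSubgroup with hB
  set B' := (ex O' (b : Submodule O K)).toAddSubgroup with hB'
  have e1 : B' = A'.map f ⊔ B := by
    refine le_antisymm (fun x hx => ?_) (sup_le ?_ fun x hx => mem_ex hx)
    · have hx' : x ∈ ex O' (b : Submodule O K) := hx
      have h2 : x * y ∈ O' := by
        have hy' : y ∈ (((exU h.le b)⁻¹ : (Submodule O' K)ˣ) : Submodule O' K) := by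
          rw [← map_inv]; exact mem_ex hy
        exact mul_inv_mem (a := exU h.le b) hx' hy'
      have e : x = γ * (x * y) + z * x := by linear_combination (-x) * hyz
      rw [e]
      exact AddSubgroup.add_mem_sup ⟨x * y, mem_one'.2 h2, rfl⟩ (h.mul_ex hx' z hz')
    · rintro _ ⟨r, hr, rfl⟩
      have : (γ : K) * r ∈ ex O' (b : Submodule O K) := by
        rw [mul_comm]; exact mul_mem' (mem_one'.1 hr) (mem_ex hγ)
      exact this
  have e2 : B ⊓ A'.map f = A.map f := by
    refine le_antisymm ?_ ?_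
    · rintro x ⟨hx, r, hr, rfl⟩
      have hx' : (γ : K) * r ∈ (b : Submodule O K) := hx
      refine ⟨r, mem_one'.2 ?_, rfl⟩
      have e : r = (γ * r) * y + r * z := by linear_combination (-r) * hyz
      rw [e]
      exact O.add_mem (mul_inv_mem hx' hy) (h.memO (mul_mem' (mem_one'.1 hr) hz'))
    · rintro _ ⟨r, hr, rfl⟩
      refine ⟨?_, r, mem_one'.2 (h.le (mem_one'.1 hr)), rfl⟩
      have : (γ : K) * r ∈ (b : Submodule O K) := by
        rw [mul_comm]; exact mul_mem' (mem_one'.1 hr) hγ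
      exact this
  have e3 : B.relIndex B' = A.relIndex A' := by
    rw [e1, AddSubgroup.relIndex_sup_right, ← AddSubgroup.inf_relIndex_right, e2,
      AddSubgroup.relIndex_map_map_of_injective _ _ hf]
  have hBB : B ≤ B' := fun x hx => mem_ex hx
  have hBA : B ≤ A := fun x hx => hb hx
  have hB'A' : B' ≤ A' := fun x hx => h.ex_le_one hb hx
  have hAA : A ≤ A' := fun x hx => mem_one'.2 (h.le (mem_one'.1 hx))
  have e4 := AddSubgroup.relIndex_mul_relIndex B B' A' hBB hB'A'
  have e5 := AddSubgroup.relIndex_mul_relIndex B A A' hBA hAA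
  rw [e3, ← e5, mul_comm] at e4
  exact mul_right_cancel₀ h.relIndex_ne e4

end Pool.Agent.H897Z.MS
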