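import Mathlib

open NumberField

namespace Pool.Agent.H897Z.MS

section tower

variable (K E E' : Type) [Field K] [Field E] [Field E'] [Algebra K E] [Algebra K E'] [Algebra E E']
  [IsScalarTower K E E']

lemma prime_up [NumberField K] [NumberField E] [NumberField E'] (p : Ideal (𝓞 K))
    (P : Ideal (𝓞 E)) [P.IsPrime] [P.LiesOver p] :
    ∃ P' : Ideal (𝓞 E'), P'.IsPrime ∧ P'.LiesOver p ∧
      P.ramificationIdx (𝓞 K) ∣ P'.ramificationIdx (𝓞 K) ∧
      ∀ x : 𝓞 E, x ∈ P ↔ algebraMap (𝓞 E) (𝓞 E') x ∈ P' := by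
  obtain ⟨P', h1, h2⟩ := (inferInstance : Nonempty (P.primesOver (𝓞 E')))
  refine ⟨P', h1, Ideal.LiesOver.trans P' P p, Ideal.ramificationIdx_below_dvd P P', fun x => ?_⟩
  rw [h2.over]; rfl

lemma extend_emb [Algebra.IsAlgebraic E E'] (τ : E →+* ℂ) :
    ∃ τ' : E' →+* ℂ, ∀ x : E, τ' (algebraMap E E' x) = τ x := by
  letI : Algebra E ℂ := τ.toAlgebra
  exact ⟨(IsAlgClosed.lift (R := E) (S := E') (M := ℂ)).toRingHom, fun x =>
    (IsAlgClosed.lift (R := E) (S := E') (M := ℂ)).commutes x⟩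

end tower

section frob

variable {K E : Type} [Field K] [Field E] [NumberField K] [NumberField E] [Algebra K E]

lemma frob_eq_one [IsGalois K E] (p : Ideal (𝓞 K)) [p.IsMaximal] (P : Ideal (𝓞 E)) [P.IsPrime]
    [P.LiesOver p] (g : E ≃ₐ[K] E) (hg : ∀ x : 𝓞 E, g • x - x ^ Nat.card (𝓞 K ⧸ p) ∈ P)
    (he : P.ramificationIdx (𝓞 K) = 1) (hf : P.inertiaDeg (𝓞 K) = 1) : g = 1 := by
  have h1 : IsArithFrobAt (𝓞 K) g P := by
    intro x
    have : P.under (𝓞 K) = p := (Ideal.over_def P p).symm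
    rw [this]; exact hg x
  have h2 := h1.mem_stabilizer
  have h3 := Ideal.card_stabilizer_eq (G := E ≃ₐ[K] E) p P
  rw [Ideal.ramificationIdxIn_eq_ramificationIdx p P (E ≃ₐ[K] E),
    Ideal.inertiaDegIn_eq_inertiaDeg p P (E ≃ₐ[K] E), he, hf, mul_one,
    Subgroup.card_eq_one] at h3
  rwa [h3, Subgroup.mem_bot] at h2

lemma inertia_eq_one (p : Ideal (𝓞 K)) [p.IsMaximal] (P : Ideal (𝓞 E)) [P.IsPrime]
    [P.LiesOver p] (hg : ∀ x : 𝓞 E, x - x ^ Nat.card (𝓞 K ⧸ p) ∈ P) :
    P.inertiaDeg (𝓞 K) = 1 := by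
  have hP : P.IsMaximal := Ideal.IsMaximal.of_liesOver_isMaximal P p
  have h1 := Ideal.cardQuot_pow_inertiaDeg p P
  rw [Submodule.cardQuot_apply, Submodule.cardQuot_apply] at h1
  have h2 := Ideal.inertiaDeg_pos P (𝓞 K)
  letI : Field (𝓞 E ⧸ P) := Ideal.Quotient.field P
  letI : Field (𝓞 K ⧸ p) := Ideal.Quotient.field p
  have hfin : Finite (𝓞 E ⧸ P) := inferInstance
  have hfin' : Finite (𝓞 K ⧸ p) := inferInstance
  letI : Fintype (𝓞 E ⧸ P) := Fintype.ofFinite _
  have hq : 1 < Nat.card (𝓞 K ⧸ p) := Finite.one_lt_card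
  set q := Nat.card (𝓞 K ⧸ p) with hqdef
  have h3 : ∀ x : (𝓞 E ⧸ P)ˣ, x ^ (q - 1) = 1 := by
    intro x
    obtain ⟨y, hy⟩ := Ideal.Quotient.mk_surjective (x : 𝓞 E ⧸ P)
    have h4 : (x : 𝓞 E ⧸ P) = (x : 𝓞 E ⧸ P) ^ q := by
      rw [← hy, ← map_pow, Ideal.Quotient.eq]; exact hg y
    have h5 : x ^ (q - 1) * x = 1 * x := by
      rw [← pow_succ, Nat.sub_add_cancel hq.le, one_mul]
      exact Units.ext (by rw [Units.val_pow_eq_pow_val]; exact h4.symm)
    exact mul_right_cancel h5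
  rw [FiniteField.forall_pow_eq_one_iff, ← Nat.card_eq_fintype_card, ← h1] at h3
  have h6 := Nat.le_of_dvd (by omega) h3
  by_contra hne
  have h7 : q ^ 2 ≤ q ^ P.inertiaDeg (𝓞 K) := Nat.pow_le_pow_right (by omega) (by omega)
  have h8 : q * 2 ≤ q ^ 2 := by rw [pow_two]; exact Nat.mul_le_mul_left q hq
  omega

end frob

section real

variable {K : Type} [Field K] [Algebra K ℝ]

lemma exists_restrict {H H' : IntermediateField K ℝ} (hle : H ≤ H') [Normal K H] [Normal K H'] :
    ∃ r : (H' ≃ₐ[K] H') →* (H ≃ₐ[K] H), Function.Surjective r ∧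
      ∀ g (x : H), IntermediateField.inclusion hle (r g x) =
        g (IntermediateField.inclusion hle x) := by
  letI : Algebra H H' := (IntermediateField.inclusion hle).toRingHom.toAlgebra
  haveI : IsScalarTower K H H' := IsScalarTower.of_algebraMap_eq fun _ => rfl
  exact ⟨AlgEquiv.restrictNormalHom H, AlgEquiv.restrictNormalHom_surjective H',
    fun g x => AlgEquiv.restrictNormal_commutes g H x⟩

lemma abelian_iSup [CharZero K] {ι : Type} (t : ι → IntermediateField K ℝ)
    (h : ∀ i, IsAbelianGalois K (t i)) :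
    IsAbelianGalois K (⨆ i, t i : IntermediateField K ℝ) := by
  have hn : Normal K (⨆ i, t i : IntermediateField K ℝ) := IntermediateField.normal_iSup K ℝ t
  have hg : IsGalois K (⨆ i, t i : IntermediateField K ℝ) := {}
  refine { is_comm := ⟨fun g k => ?_⟩ }
  apply AlgEquiv.coe_algHom_injective
  refine IntermediateField.algHom_ext_of_eq_adjoin K (IntermediateField.iSup_eq_adjoin K t) ?_
  intro x hx
  obtain ⟨i, hi⟩ := Set.mem_iUnion.1 hx
  obtain ⟨r, -, hr⟩ := exists_restrict (le_iSup t i)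
  have h1 := hr (g * k) ⟨x, hi⟩
  have h2 := hr (k * g) ⟨x, hi⟩
  rw [map_mul] at h1 h2
  have h3 : r g * r k = r k * r g := (h i).is_comm.comm _ _
  rw [h3] at h1
  exact h1.symm.trans h2

lemma exists_subfield (H' : IntermediateField K ℝ) [FiniteDimensional K H'] [IsAbelianGalois K H']
    (N : Subgroup (H' ≃ₐ[K] H')) :
    ∃ (H : IntermediateField K ℝ) (hle : H ≤ H') (r : (H' ≃ₐ[K] H') →* (H ≃ₐ[K] H)),
      FiniteDimensional K H ∧ IsAbelianGalois K H ∧ Function.Surjective r ∧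
      (∀ g (x : H), IntermediateField.inclusion hle (r g x) =
        g (IntermediateField.inclusion hle x)) ∧
      (∀ g, r g = 1 ↔ g ∈ N) ∧ ∀ x : H', (∀ g ∈ N, g x = x) → (x : ℝ) ∈ H := by
  let H := IntermediateField.lift (IntermediateField.fixedField N)
  have hle : H ≤ H' := IntermediateField.lift_le _
  have hab : IsAbelianGalois K H := IsAbelianGalois.of_algHom (IntermediateField.inclusion hle)
  have hfin : FiniteDimensional K H :=
    Module.Finite.of_injective (IntermediateField.inclusion hle).toLinearMap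
      (IntermediateField.inclusion_injective hle)
  obtain ⟨r, hs, hr⟩ := exists_restrict hle
  refine ⟨H, hle, r, hfin, hab, hs, hr, fun g => ?_, fun x hx => ?_⟩
  · rw [← IntermediateField.fixingSubgroup_fixedField N, IntermediateField.mem_fixingSubgroup_iff]
    constructor
    · intro e x hx
      have := hr g ⟨x, (IntermediateField.mem_lift x).2 hx⟩
      rw [e] at this
      exact this.symm
    · intro hx
      ext x
      have h1 := hr g x
      rw [hx _ ((IntermediateField.mem_lift _).1 x.2)] at h1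
      exact congrArg Subtype.val (IntermediateField.inclusion_injective hle h1)
  · exact (IntermediateField.mem_lift x).2 ((IntermediateField.mem_fixedField_iff N x).2 hx)

end real

end Pool.Agent.H897Z.MS
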