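import Pool.Agent.H897Z.MS.Defs

open NumberField

namespace Pool.Agent.H897Z.MS

variable {K : Type} [Field K] {O : Subalgebra ℤ K}

lemma mem_one' {x : K} : x ∈ (1 : Submodule O K) ↔ x ∈ O := by
  rw [Submodule.mem_one]
  constructor
  · rintro ⟨y, rfl⟩; exact y.2
  · intro h; exact ⟨⟨x, h⟩, rfl⟩

lemma mul_mem' {M : Submodule O K} {r x : K} (hr : r ∈ O) (hx : x ∈ M) : r * x ∈ M :=
  M.smul_mem ⟨r, hr⟩ hx

lemma mem_span1 {a x : K} : x ∈ Submodule.span O {a} ↔ ∃ r ∈ O, r * a = x := by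
  rw [Submodule.mem_span_singleton]
  constructor
  · rintro ⟨r, rfl⟩; exact ⟨r, r.2, rfl⟩
  · rintro ⟨r, hr, rfl⟩; exact ⟨⟨r, hr⟩, rfl⟩

lemma mem_span1_mul {a x : K} {M : Submodule O K} :
    x ∈ Submodule.span O {a} * M ↔ ∃ y ∈ M, a * y = x :=
  Submodule.mem_span_singleton_mul

lemma span1_mul_le {a : K} {M N : Submodule O K} :
    Submodule.span O {a} * M ≤ N ↔ ∀ y ∈ M, a * y ∈ N := by
  constructor
  · intro h y hy; exact h (mem_span1_mul.2 ⟨y, hy, rfl⟩)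
  · intro h x hx
    obtain ⟨y, hy, rfl⟩ := mem_span1_mul.1 hx
    exact h y hy

/-- localisation as a submodule -/
def L (m M : Submodule O K) : Submodule O K where
  carrier := {x | ∃ z ∈ m, z ∈ O ∧ (1 - z) * x ∈ M}
  add_mem' := by
    rintro a b ⟨z, hz, hzO, ha⟩ ⟨w, hw, hwO, hb⟩
    refine ⟨z + w - w * z, m.sub_mem (m.add_mem hz hw) (mul_mem' hwO hz),
      O.sub_mem (O.add_mem hzO hwO) (O.mul_mem hwO hzO), ?_⟩
    have e : (1 - (z + w - w * z)) * (a + b) = (1 - w) * ((1 - z) * a) + (1 - z) * ((1 - w) * b) := by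
      ring
    rw [e]
    exact M.add_mem (mul_mem' (O.sub_mem O.one_mem hwO) ha) (mul_mem' (O.sub_mem O.one_mem hzO) hb)
  zero_mem' := ⟨0, m.zero_mem, O.zero_mem, by simp⟩
  smul_mem' := by
    rintro r x ⟨z, hz, hzO, hx⟩
    refine ⟨z, hz, hzO, ?_⟩
    have e : (1 - z) * (r • x) = (r : K) * ((1 - z) * x) := by
      change (1 - z) * ((r : K) * x) = _
      ring
    rw [e]; exact mul_mem' r.2 hx

lemma mem_L {m M : Submodule O K} {x : K} : x ∈ L m M ↔ ∃ z ∈ m, z ∈ O ∧ (1 - z) * x ∈ M :=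
  Iff.rfl

lemma le_L (m M : Submodule O K) : M ≤ L m M := fun x hx =>
  ⟨0, m.zero_mem, O.zero_mem, by simpa using hx⟩

lemma L_mono {m m' M M' : Submodule O K} (h : m ≤ m') (h' : M ≤ M') : L m M ≤ L m' M' := by
  rintro x ⟨z, hz, hzO, hx⟩
  exact ⟨z, h hz, hzO, h' hx⟩

lemma L_mul_mem {m M N : Submodule O K} {x y : K} (hx : x ∈ L m M) (hy : y ∈ L m N) :
    x * y ∈ L m (M * N) := by
  obtain ⟨z, hz, hzO, ha⟩ := hx
  obtain ⟨w, hw, hwO, hb⟩ := hy
  refine ⟨z + w - w * z, m.sub_mem (m.add_mem hz hw) (mul_mem' hwO hz),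
      O.sub_mem (O.add_mem hzO hwO) (O.mul_mem hwO hzO), ?_⟩
  have e : (1 - (z + w - w * z)) * (x * y) = ((1 - z) * x) * ((1 - w) * y) := by ring
  rw [e]
  exact Submodule.mul_mem_mul ha hb

lemma L_mul_mem_left {m N : Submodule O K} {x y : K} (hx : x ∈ L m 1) (hy : y ∈ L m N) :
    x * y ∈ L m N := by
  simpa using L_mul_mem hx hy

lemma L_mul_mem_right {m N : Submodule O K} {x y : K} (hx : x ∈ L m N) (hy : y ∈ L m 1) :
    x * y ∈ L m N := by
  simpa using L_mul_mem hx hy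

lemma L_L {m M : Submodule O K} {x : K} (hx : x ∈ L m (L m M)) : x ∈ L m M := by
  obtain ⟨z, hz, hzO, w, hw, hwO, h⟩ := hx
  refine ⟨z + w - w * z, m.sub_mem (m.add_mem hz hw) (mul_mem' hwO hz),
      O.sub_mem (O.add_mem hzO hwO) (O.mul_mem hwO hzO), ?_⟩
  have e : (1 - (z + w - w * z)) * x = (1 - w) * ((1 - z) * x) := by ring
  rw [e]; exact h

lemma mul_le_L {m M N A B : Submodule O K} (hA : A ≤ L m M) (hB : B ≤ L m N) :
    A * B ≤ L m (M * N) :=
  Submodule.mul_le.2 fun _ hx _ hy => L_mul_mem (hA hx) (hB hy)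

lemma mul_le_L1 {m A B : Submodule O K} (hA : A ≤ L m 1) (hB : B ≤ L m 1) :
    A * B ≤ L m 1 := by
  simpa using mul_le_L hA hB

lemma sup_eq_one_iff {m a : Submodule O K} (hm : m ≤ 1) (ha : a ≤ 1) :
    a ⊔ m = 1 ↔ ∃ z ∈ m, 1 - z ∈ a := by
  constructor
  · intro h
    have h1 : (1 : K) ∈ a ⊔ m := by rw [h]; exact mem_one'.2 O.one_mem
    obtain ⟨x, hx, z, hz, e⟩ := Submodule.mem_sup.1 h1
    exact ⟨z, hz, by rw [← e]; simpa using hx⟩
  · rintro ⟨z, hz, h⟩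
    refine le_antisymm (sup_le ha hm) (Submodule.one_le.2 ?_)
    exact Submodule.mem_sup.2 ⟨1 - z, h, z, hz, by ring⟩

lemma mem_loc {m M : Submodule O K} (hm : m ≤ 1) {x : K} : x ∈ loc m M ↔ x ∈ L m M := by
  constructor
  · rintro ⟨s, ⟨hs, h⟩, hx⟩
    have hle : Submodule.span O {s} ≤ 1 := by
      rw [Submodule.span_singleton_le_iff_mem]; exact mem_one'.2 hs
    obtain ⟨z, hz, h1⟩ := (sup_eq_one_iff hm hle).1 h
    obtain ⟨r, hr, e⟩ := mem_span1.1 h1
    refine ⟨z, hz, mem_one'.1 (hm hz), ?_⟩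
    rw [← e, mul_assoc]; exact mul_mem' hr hx
  · rintro ⟨z, hz, hzO, hx⟩
    have h1 : 1 - z ∈ O := O.sub_mem O.one_mem hzO
    have hle : Submodule.span O {1 - z} ≤ 1 := by
      rw [Submodule.span_singleton_le_iff_mem]; exact mem_one'.2 h1
    exact ⟨1 - z, ⟨h1, (sup_eq_one_iff hm hle).2 ⟨z, hz, Submodule.mem_span_singleton_self _⟩⟩, hx⟩

lemma mem_Jflat {m : Submodule O K} (hm : m ≤ 1) {a : (Submodule O K)ˣ} :
    a ∈ Jflat m ↔ (a : Submodule O K) ≤ L m 1 :=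
  ⟨fun h _ hx => (mem_loc hm).1 (h hx), fun h _ hx => (mem_loc hm).2 (h hx)⟩

/-- principal ideal as a unit -/
noncomputable def pr (O : Subalgebra ℤ K) : Kˣ →* (Submodule O K)ˣ :=
  Units.map (Submodule.spanSingleton O).toMonoidHom

lemma pr_val (l : Kˣ) : ((pr O l : (Submodule O K)ˣ) : Submodule O K) = Submodule.span O {(l : K)} :=
  rfl

lemma mem_pr_mul {l : Kˣ} {a : (Submodule O K)ˣ} {x : K} :
    x ∈ ((pr O l * a : (Submodule O K)ˣ) : Submodule O K) ↔ ∃ y ∈ (a : Submodule O K), l * y = x := by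
  rw [Units.val_mul, pr_val, mem_span1_mul]

lemma ucomm (a b : (Submodule O K)ˣ) : a * b = b * a := mul_comm a b

lemma unit_ne_bot (a : (Submodule O K)ˣ) : (a : Submodule O K) ≠ ⊥ := by
  intro h
  have h1 : ((a * a⁻¹ : (Submodule O K)ˣ) : Submodule O K) = 1 := by simp
  rw [Units.val_mul, h, Submodule.bot_mul] at h1
  have : (1 : K) ∈ (⊥ : Submodule O K) := by rw [h1]; exact mem_one'.2 O.one_mem
  simp at this

lemma ne_zero_of_eq_span_mul {a c : (Submodule O K)ˣ} {α : K}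
    (h : (a : Submodule O K) = Submodule.span O {α} * (c : Submodule O K)) : α ≠ 0 := by
  rintro rfl
  apply unit_ne_bot a
  rw [h]; simp

lemma ne_zero_of_eq_span {a : (Submodule O K)ˣ} {α : K}
    (h : (a : Submodule O K) = Submodule.span O {α}) : α ≠ 0 :=
  ne_zero_of_eq_span_mul (c := 1) (by simpa using h)

lemma mul_inv_mem {a : (Submodule O K)ˣ} {x y : K} (hx : x ∈ (a : Submodule O K))
    (hy : y ∈ ((a⁻¹ : (Submodule O K)ˣ) : Submodule O K)) : x * y ∈ O := by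
  have := Submodule.mul_mem_mul hx hy
  rw [← Units.val_mul, mul_inv_cancel, Units.val_one] at this
  exact mem_one'.1 this

/-- the group of ideals that are units at `m` -/
def G (m : Submodule O K) : Subgroup (Submodule O K)ˣ where
  carrier := {c | (c : Submodule O K) ≤ L m 1 ∧ ((c⁻¹ : (Submodule O K)ˣ) : Submodule O K) ≤ L m 1}
  mul_mem' := by
    rintro a b ⟨h1, h2⟩ ⟨h3, h4⟩
    refine ⟨?_, ?_⟩
    · rw [Units.val_mul]; exact mul_le_L1 h1 h3
    · rw [mul_inv_rev, Units.val_mul]; exact mul_le_L1 h4 h2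
  one_mem' := ⟨by simpa using le_L m 1, by simpa using le_L m 1⟩
  inv_mem' := by
    rintro a ⟨h1, h2⟩
    exact ⟨h2, by simpa using h1⟩

lemma G_mono {m m' : Submodule O K} (h : m ≤ m') : G m ≤ G m' := fun _ hc =>
  ⟨hc.1.trans (L_mono h le_rfl), hc.2.trans (L_mono h le_rfl)⟩

lemma mem_G_of_coprime {m : Submodule O K} (hm : m ≤ 1) {a : (Submodule O K)ˣ}
    (ha : (a : Submodule O K) ≤ 1) (h : (a : Submodule O K) ⊔ m = 1) : a ∈ G m := by
  obtain ⟨z, hz, h1⟩ := (sup_eq_one_iff hm ha).1 h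
  refine ⟨ha.trans (le_L m 1), fun x hx => ⟨z, hz, mem_one'.1 (hm hz), ?_⟩⟩
  exact mem_one'.2 (mul_inv_mem h1 hx)

lemma coprime_of_mem_G {m : Submodule O K} (hm : m ≤ 1) {a : (Submodule O K)ˣ}
    (ha : (a : Submodule O K) ≤ 1) (h : a ∈ G m) : (a : Submodule O K) ⊔ m = 1 := by
  have h1 : (1 : K) ∈ (a : Submodule O K) * ((a⁻¹ : (Submodule O K)ˣ) : Submodule O K) := by
    rw [← Units.val_mul, mul_inv_cancel, Units.val_one]; exact mem_one'.2 O.one_mem
  have h2 := mul_le_L (le_L m (a : Submodule O K)) h.2 h1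
  rw [mul_one] at h2
  obtain ⟨z, hz, -, h3⟩ := h2
  exact (sup_eq_one_iff hm ha).2 ⟨z, hz, by simpa using h3⟩

lemma exists_denom {m M : Submodule O K} {A : Submodule O K} (hA : A.FG) (h : A ≤ L m M) :
    ∃ z ∈ m, z ∈ O ∧ ∀ x ∈ A, (1 - z) * x ∈ M := by
  induction A, hA using Submodule.fg_induction with
  | singleton x =>
    obtain ⟨z, hz, hzO, hx⟩ := h (Submodule.mem_span_singleton_self x)
    refine ⟨z, hz, hzO, fun y hy => ?_⟩
    obtain ⟨r, hr, rfl⟩ := mem_span1.1 hy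
    have e : (1 - z) * (r * x) = r * ((1 - z) * x) := by ring
    rw [e]; exact mul_mem' hr hx
  | sup A B _ _ ihA ihB =>
    obtain ⟨z, hz, hzO, hx⟩ := ihA (le_sup_left.trans h)
    obtain ⟨w, hw, hwO, hy⟩ := ihB (le_sup_right.trans h)
    refine ⟨z + w - w * z, m.sub_mem (m.add_mem hz hw) (mul_mem' hwO hz),
      O.sub_mem (O.add_mem hzO hwO) (O.mul_mem hwO hzO), fun t ht => ?_⟩
    obtain ⟨a, ha, b, hb, rfl⟩ := Submodule.mem_sup.1 ht
    have e : (1 - (z + w - w * z)) * (a + b) = (1 - w) * ((1 - z) * a) + (1 - z) * ((1 - w) * b) := by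
      ring
    rw [e]
    exact M.add_mem (mul_mem' (O.sub_mem O.one_mem hwO) (hx a ha))
      (mul_mem' (O.sub_mem O.one_mem hzO) (hy b hb))

lemma one_sub_ne_zero {m : Submodule O K} (hm : m ≤ 1) (hne : m ≠ 1) {z : K} (hz : z ∈ m) :
    1 - z ≠ 0 := by
  intro h
  apply hne
  refine le_antisymm hm (Submodule.one_le.2 ?_)
  have : z = 1 := by linear_combination -h
  rwa [this] at hz

lemma one_notMem_L {m : Submodule O K} (hm : m ≤ 1) (hne : m ≠ 1) : (1 : K) ∉ L m m := by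
  rintro ⟨z, hz, -, h⟩
  have := m.add_mem hz h
  exact one_sub_ne_zero hm hne this (by ring)

/-- a unit of `K` congruent to a sign is a unit at `m` -/
lemma pr_mem_G {m : Submodule O K} (hm : m ≤ 1) {l : Kˣ} {e : K} (he : e * e = 1) (heO : e ∈ O)
    (h : (l : K) - e ∈ L m m) : pr O l ∈ G m := by
  have hl : (l : K) ∈ L m 1 := by
    have := (L m 1).add_mem (L_mono le_rfl hm h) (le_L m 1 (mem_one'.2 heO))
    simpa using this
  have hl' : ((l⁻¹ : Kˣ) : K) ∈ L m 1 := by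
    obtain ⟨z, hz, hzO, h1⟩ := h
    refine ⟨z - e * ((1 - z) * (l - e)), m.sub_mem hz (mul_mem' heO h1),
      O.sub_mem hzO (O.mul_mem heO (mem_one'.1 (hm h1))), ?_⟩
    have e1 : (1 - (z - e * ((1 - z) * (l - e)))) * ((l⁻¹ : Kˣ) : K) = e * (1 - z) := by
      have : (l : K) * ((l⁻¹ : Kˣ) : K) = 1 := by simp
      linear_combination (-(1 - z) * ((l⁻¹ : Kˣ) : K)) * he + (e * (1 - z)) * this
    rw [e1]
    exact mem_one'.2 (O.mul_mem heO (O.sub_mem O.one_mem hzO))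
  refine ⟨?_, ?_⟩
  · rw [pr_val, Submodule.span_singleton_le_iff_mem]; exact hl
  · rw [← map_inv, pr_val, Submodule.span_singleton_le_iff_mem]; exact hl'

lemma mem_Jm {m : Submodule O K} (hm : m ≤ 1) (hne : m ≠ 1) {a : (Submodule O K)ˣ} :
    a ∈ Jm m ↔ a ∈ G m := by
  constructor
  · rintro ⟨a₁, a₂, h1, h2, h3, h4, rfl⟩
    exact (G m).mul_mem (mem_G_of_coprime hm h1 h3) ((G m).inv_mem (mem_G_of_coprime hm h2 h4))
  · intro h
    obtain ⟨z, hz, hzO, hx⟩ := exists_denom (Submodule.fg_unit a) h.1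
    have h0 := one_sub_ne_zero hm hne hz
    have hG : pr O (Units.mk0 _ h0) ∈ G m :=
      pr_mem_G hm (e := 1) (by ring) O.one_mem (by
        simpa using (L m m).neg_mem (le_L m m hz))
    have hle : ((pr O (Units.mk0 _ h0) : (Submodule O K)ˣ) : Submodule O K) ≤ 1 := by
      rw [pr_val, Submodule.span_singleton_le_iff_mem]
      exact mem_one'.2 (O.sub_mem O.one_mem hzO)
    have hle2 : ((pr O (Units.mk0 _ h0) * a : (Submodule O K)ˣ) : Submodule O K) ≤ 1 := by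
      intro x hx'
      obtain ⟨y, hy, rfl⟩ := mem_pr_mul.1 hx'
      exact hx y hy
    refine ⟨pr O (Units.mk0 _ h0) * a, pr O (Units.mk0 _ h0), hle2, hle,
      coprime_of_mem_G hm hle2 ((G m).mul_mem hG h), coprime_of_mem_G hm hle hG, ?_⟩
    rw [mul_comm (pr O _) a, mul_assoc, mul_inv_cancel, mul_one]

/-- standing hypotheses on a modulus -/
structure Good (m : Submodule O K) : Prop where
  fin : Module.Finite ℤ O
  le : m ≤ 1
  ne : m ≠ 1
  nat : ∃ N : ℕ, 0 < N ∧ (N : K) ∈ m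

/-- a submodule contained in `O` as an ideal -/
def idl (m : Submodule O K) : Ideal O := m.comap (Algebra.linearMap O K)

lemma mem_idl {m : Submodule O K} {x : O} : x ∈ idl m ↔ (x : K) ∈ m := Iff.rfl

lemma Good.finite_quot {m : Submodule O K} (h : Good m) : Finite (O ⧸ idl m) := by
  have := h.fin
  obtain ⟨N, hN, hNm⟩ := h.nat
  have : Module.Finite ℤ (O ⧸ idl m) :=
    Module.Finite.of_surjective (Ideal.Quotient.mkₐ ℤ (idl m)).toLinearMap
      (Ideal.Quotient.mkₐ_surjective ℤ _)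
  refine Module.finite_of_fg_torsion _ ?_
  intro x
  refine ⟨⟨(N : ℤ), mem_nonZeroDivisors_of_ne_zero (by exact_mod_cast hN.ne')⟩, ?_⟩
  obtain ⟨y, rfl⟩ := Ideal.Quotient.mk_surjective x
  change (N : ℤ) • Ideal.Quotient.mk (idl m) y = 0
  rw [← map_zsmul, Ideal.Quotient.eq_zero_iff_mem, mem_idl]
  have e : (((N : ℤ) • y : O) : K) = (y : K) * N := by
    simp [mul_comm]
  rw [e]; exact mul_mem' y.2 hNm

lemma Good.finite_max {m : Submodule O K} (h : Good m) :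
    {M : Ideal O | M.IsMaximal ∧ idl m ≤ M}.Finite := by
  have := h.finite_quot
  have hf : (Set.range (fun J : Ideal (O ⧸ idl m) => J.comap (Ideal.Quotient.mk (idl m)))).Finite :=
    Set.finite_range _
  refine hf.subset ?_
  rintro M ⟨-, hM⟩
  refine ⟨M.map (Ideal.Quotient.mk (idl m)), ?_⟩
  simp only
  rw [Ideal.comap_map_of_surjective _ Ideal.Quotient.mk_surjective, sup_eq_left,
    ← RingHom.ker_eq_comap_bot, Ideal.mk_ker]
  exact hM

/-- local generator -/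
lemma Good.exists_gen {m : Submodule O K} (h : Good m) (b : (Submodule O K)ˣ) :
    ∃ γ : Kˣ, (γ : K) ∈ (b : Submodule O K) ∧ (pr O γ)⁻¹ * b ∈ G m := by
  classical
  set S := h.finite_max.toFinset with hS
  have hmemS : ∀ M, M ∈ S ↔ M.IsMaximal ∧ idl m ≤ M := fun M => by simp [hS]
  have h1 : ∀ M : Ideal O, M.IsMaximal → ∃ x ∈ (b : Submodule O K),
      ∃ y ∈ ((b⁻¹ : (Submodule O K)ˣ) : Submodule O K), ∀ t ∈ M, (t : K) ≠ x * y := by
    intro M hM
    by_contra hc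
    push Not at hc
    have h2 : ∀ w ∈ (b : Submodule O K) * ((b⁻¹ : (Submodule O K)ˣ) : Submodule O K),
        ∃ t ∈ M, (t : K) = w := by
      intro w hw
      refine Submodule.mul_induction_on hw (fun x hx y hy => hc x hx y hy) ?_
      rintro _ _ ⟨t, ht, rfl⟩ ⟨s, hs, rfl⟩
      exact ⟨t + s, M.add_mem ht hs, rfl⟩
    obtain ⟨t, ht, e⟩ := h2 1 (by
      rw [← Units.val_mul, mul_inv_cancel, Units.val_one]; exact mem_one'.2 O.one_mem)
    have : t = 1 := Subtype.ext e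
    exact hM.ne_top ((Ideal.eq_top_iff_one _).2 (this ▸ ht))
  choose! x hx y hy hxy using h1
  have h3 : ∀ M ∈ S, ∃ e : O, e ∉ M ∧ ∀ M' ∈ S, M' ≠ M → e ∈ M' := by
    intro M hM
    have hMm := ((hmemS M).1 hM).1
    have : ¬ ((S.erase M).inf id ≤ M) := by
      rw [hMm.isPrime.inf_le']
      rintro ⟨M', hM', hle⟩
      have hM'' := Finset.mem_erase.1 hM'
      exact hM''.1 ((((hmemS M').1 hM''.2).1.eq_of_le hMm.ne_top hle))
    obtain ⟨e, he, heM⟩ := Set.not_subset.1 this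
    refine ⟨e, heM, fun M' hM' hne => ?_⟩
    have : (S.erase M).inf id ≤ M' := Finset.inf_le (f := id) (Finset.mem_erase.2 ⟨hne, hM'⟩)
    exact this he
  choose! e he he' using h3
  set γ : K := ∑ M ∈ S, (e M : K) * x M with hγ
  have hγb : γ ∈ (b : Submodule O K) :=
    Submodule.sum_mem _ fun M hM => mul_mem' (e M).2 (hx M ((hmemS M).1 hM).1)
  have hle : Submodule.span O {γ} * ((b⁻¹ : (Submodule O K)ˣ) : Submodule O K) ≤ 1 :=
    span1_mul_le.2 fun w hw => mem_one'.2 (mul_inv_mem hγb hw)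
  have htop : idl (Submodule.span O {γ} * ((b⁻¹ : (Submodule O K)ˣ) : Submodule O K)) ⊔ idl m
      = ⊤ := by
    by_contra hc
    obtain ⟨M, hM, hMle⟩ := Ideal.exists_le_maximal _ hc
    have hMS : M ∈ S := (hmemS M).2 ⟨hM, le_sup_right.trans hMle⟩
    let u : Ideal O → O := fun M' => if hM' : M' ∈ S then
      ⟨x M' * y M, mul_inv_mem (hx M' ((hmemS M').1 hM').1) (hy M hM)⟩ else 0
    have hu : ∀ M' ∈ S, (u M' : K) = x M' * y M := fun M' hM' => by simp [u, hM']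
    have hsum : (∑ M' ∈ S, e M' * u M') ∈ M := by
      apply le_sup_left.trans hMle
      rw [mem_idl]
      refine mem_span1_mul.2 ⟨y M, hy M hM, ?_⟩
      rw [hγ, Finset.sum_mul]
      push_cast
      refine Finset.sum_congr rfl fun M' hM' => ?_
      rw [hu M' hM']; ring
    rw [← Finset.add_sum_erase S _ hMS] at hsum
    have hrest : (∑ M' ∈ S.erase M, e M' * u M') ∈ M :=
      Submodule.sum_mem _ fun M' hM' => M.mul_mem_right _
        (he' M' (Finset.mem_erase.1 hM').2 M hMS (Finset.mem_erase.1 hM').1.symm)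
    have : e M * u M ∈ M := by simpa using M.sub_mem hsum hrest
    rcases hM.isPrime.mem_or_mem this with h' | h'
    · exact he M hMS h'
    · exact hxy M hM _ h' (hu M hMS)
  obtain ⟨s, hs, z, hz, hsz⟩ := Submodule.mem_sup.1 ((Ideal.eq_top_iff_one _).1 htop)
  have hs' : 1 - (z : K) ∈ Submodule.span O {γ} * ((b⁻¹ : (Submodule O K)ˣ) : Submodule O K) := by
    have : (s : K) + z = 1 := by exact_mod_cast congrArg Subtype.val hsz
    have e1 : 1 - (z : K) = s := by linear_combination -this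
    rw [e1]; exact hs
  have hγ0 : γ ≠ 0 := by
    intro h0
    rw [h0] at hs'
    simp only [Submodule.span_zero_singleton, Submodule.bot_mul, Submodule.mem_bot] at hs'
    exact one_sub_ne_zero h.le h.ne hz hs'
  refine ⟨Units.mk0 γ hγ0, hγb, ?_⟩
  have hG : pr O (Units.mk0 γ hγ0) * b⁻¹ ∈ G m :=
    mem_G_of_coprime h.le hle ((sup_eq_one_iff h.le hle).2 ⟨z, hz, hs'⟩)
  rw [ucomm]
  simpa using (G m).inv_mem hG

/-- normal form of the relation -/
def NF (σ : K →+* ℝ) (m : Submodule O K) (a b : (Submodule O K)ˣ) : Prop :=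
  ∃ l : Kˣ, b = pr O l * a ∧ 0 < σ l ∧ ∀ x ∈ (a : Submodule O K), ((l : K) - 1) * x ∈ L m m

variable {σ : K →+* ℝ} {m : Submodule O K}

lemma NF.refl (a : (Submodule O K)ˣ) : NF σ m a a :=
  ⟨1, by simp, by simp, fun x _ => by simp⟩

lemma NF.symm {a b : (Submodule O K)ˣ} (h : NF σ m a b) : NF σ m b a := by
  obtain ⟨l, rfl, hl, h⟩ := h
  refine ⟨l⁻¹, by simp, by simpa using hl, fun x hx => ?_⟩
  obtain ⟨y, hy, rfl⟩ := mem_pr_mul.1 hx
  have e : (((l⁻¹ : Kˣ) : K) - 1) * (l * y) = -(((l : K) - 1) * y) := by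
    have : (l : K) * ((l⁻¹ : Kˣ) : K) = 1 := by simp
    linear_combination y * this
  rw [e]; exact (L m m).neg_mem (h y hy)

lemma NF.trans {a b c : (Submodule O K)ˣ} (h : NF σ m a b) (h' : NF σ m b c) : NF σ m a c := by
  obtain ⟨l, rfl, hl, h⟩ := h
  obtain ⟨k, rfl, hk, h'⟩ := h'
  refine ⟨k * l, by simp [mul_assoc], by simpa using mul_pos hk hl, fun x hx => ?_⟩
  have e : (((k * l : Kˣ) : K) - 1) * x = ((k : K) - 1) * (l * x) + ((l : K) - 1) * x := by
    push_cast; ring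
  rw [e]
  exact (L m m).add_mem (h' _ (mem_pr_mul.2 ⟨x, hx, rfl⟩)) (h x hx)

lemma NF.le_L {a b : (Submodule O K)ˣ} (hm : m ≤ 1) (h : NF σ m a b)
    (ha : (a : Submodule O K) ≤ L m 1) : (b : Submodule O K) ≤ L m 1 := by
  obtain ⟨l, rfl, -, h⟩ := h
  intro x hx
  obtain ⟨y, hy, rfl⟩ := mem_pr_mul.1 hx
  have e : (l : K) * y = ((l : K) - 1) * y + y := by ring
  rw [e]
  exact (L m 1).add_mem (L_mono le_rfl hm (h y hy)) (ha hy)

lemma NF.mul_right {a b c : (Submodule O K)ˣ} (h : NF σ m a b)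
    (hc : (c : Submodule O K) ≤ L m 1) : NF σ m (a * c) (b * c) := by
  obtain ⟨l, rfl, hl, h⟩ := h
  refine ⟨l, by rw [mul_assoc], hl, fun x hx => ?_⟩
  rw [Units.val_mul] at hx
  refine Submodule.mul_induction_on hx (fun y hy w hw => ?_) (fun y w hy hw => ?_)
  · rw [← mul_assoc]; exact L_mul_mem_right (h y hy) (hc hw)
  · rw [mul_add]; exact (L m m).add_mem hy hw

lemma NF.of_mul_right {a b c : (Submodule O K)ˣ} (h : NF σ m (a * c) (b * c))
    (hc : c ∈ G m) : NF σ m a b := by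
  simpa using h.mul_right hc.2

lemma NF.of_P {a : (Submodule O K)ˣ} (ha : (a : Submodule O K) ≤ L m 1) {l : Kˣ}
    (hl : (l : K) - 1 ∈ L m m) (hσ : 0 < σ l) : NF σ m a (pr O l * a) :=
  ⟨l, rfl, hσ, fun _ hx => L_mul_mem_right hl (ha hx)⟩

lemma sign_eq_iff_div_pos {x y : ℝ} (hx : x ≠ 0) (hy : y ≠ 0) :
    SignType.sign x = SignType.sign y ↔ 0 < y * x⁻¹ := by
  rcases lt_or_gt_of_ne hx with h | h <;> rcases lt_or_gt_of_ne hy with h' | h'
  · simp [h, h', mul_pos_of_neg_of_neg h' (inv_lt_zero.2 h)]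
  · simp [h, h', h.le]
  · simp [h, h', (mul_neg_of_neg_of_pos h' (inv_pos.2 h)).not_gt]
  · simp [h, h']

lemma rel_iff (h : Good m) {a b : (Submodule O K)ˣ} (ha : (a : Submodule O K) ≤ L m 1) :
    Rel σ m a b ↔ NF σ m a b := by
  constructor
  · rintro ⟨c, hc, α, hα, β, hβ, e1, e2, hd, hs⟩
    have hα0 := ne_zero_of_eq_span_mul e1
    have hβ0 := ne_zero_of_eq_span_mul e2
    rw [mem_Jflat h.le] at hc
    rw [mem_loc h.le] at hd
    have e1' : a = pr O (Units.mk0 α hα0) * c := Units.ext e1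
    have e2' : b = pr O (Units.mk0 β hβ0) * c := Units.ext e2
    refine ⟨Units.mk0 β hβ0 * (Units.mk0 α hα0)⁻¹, ?_, ?_, fun x hx => ?_⟩
    · rw [e1', e2', map_mul, map_inv]; group
    · have := (sign_eq_iff_div_pos ((map_ne_zero σ).2 hα0) ((map_ne_zero σ).2 hβ0)).1 hs
      simpa using this
    · rw [e1] at hx
      obtain ⟨y, hy, rfl⟩ := mem_span1_mul.1 hx
      have e : (((Units.mk0 β hβ0 * (Units.mk0 α hα0)⁻¹ : Kˣ) : K) - 1) * (α * y)
          = -((α - β) * y) := by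
        simp only [Units.val_mul, Units.val_mk0, Units.val_inv_eq_inv_val]
        field_simp
        ring
      rw [e]; exact (L m m).neg_mem (L_mul_mem_right hd (hc hy))
  · rintro ⟨l, rfl, hl, hx⟩
    obtain ⟨γ, hγ, hG⟩ := h.exists_gen a
    have h1 := hx _ hγ
    refine ⟨(pr O γ)⁻¹ * a, (mem_Jflat h.le).2 hG.1, γ, (mem_loc h.le).2 (ha hγ), l * γ,
      (mem_loc h.le).2 ?_, ?_, ?_, (mem_loc h.le).2 ?_, ?_⟩
    · have e : (l : K) * γ = ((l : K) - 1) * γ + γ := by ring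
      rw [e]; exact (L m 1).add_mem (L_mono le_rfl h.le h1) (ha hγ)
    · rw [← pr_val, ← Units.val_mul]; congr 1; group
    · have : ((l : K) * γ) = ((l * γ : Kˣ) : K) := rfl
      rw [this, ← pr_val, ← Units.val_mul, map_mul]; congr 1; group
    · have e : (γ : K) - l * γ = -(((l : K) - 1) * γ) := by ring
      rw [e]; exact (L m m).neg_mem h1
    · rw [map_mul, sign_mul, sign_pos hl, one_mul]

lemma mem_cls (h : Good m) {a b : (Submodule O K)ˣ} (ha : (a : Submodule O K) ≤ L m 1) :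
    b ∈ cls σ m a ↔ NF σ m a b := by
  constructor
  · rintro ⟨-, h1⟩; exact (rel_iff h ha).1 h1
  · intro h1; exact ⟨(mem_Jflat h.le).2 (h1.le_L h.le ha), (rel_iff h ha).2 h1⟩

lemma mem_Pm (hm : m ≤ 1) {a : (Submodule O K)ˣ} :
    a ∈ Pm σ m ↔ ∃ l : Kˣ, (l : K) - 1 ∈ L m m ∧ 0 < σ l ∧ a = pr O l := by
  constructor
  · rintro ⟨α, h1, h2, h3⟩
    exact ⟨Units.mk0 α (ne_zero_of_eq_span h3), (mem_loc hm).1 h1, h2, Units.ext h3⟩
  · rintro ⟨l, h1, h2, rfl⟩
    exact ⟨l, (mem_loc hm).2 h1, h2, rfl⟩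

lemma clsR_eq (h : Good m) {a : (Submodule O K)ˣ} (ha : (a : Submodule O K) ≤ L m 1)
    {ρ : Kˣ} (hρ : (ρ : K) + 1 ∈ L m m) (hσ : 0 < σ ρ) :
    clsR σ m a = cls σ m (a * pr O ρ) := by
  have hG : ∀ r : Kˣ, (r : K) + 1 ∈ L m m → pr O r ∈ G m := fun r hr =>
    pr_mem_G h.le (e := -1) (by ring) (O.neg_mem O.one_mem) (by simpa using hr)
  have hle : ∀ r : Kˣ, (r : K) + 1 ∈ L m m →
      ((a * pr O r : (Submodule O K)ˣ) : Submodule O K) ≤ L m 1 := fun r hr => by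
    rw [Units.val_mul]; exact mul_le_L1 ha (hG r hr).1
  ext b
  rw [mem_cls h (hle ρ hρ)]
  constructor
  · rintro ⟨-, α, u, hu, h1, h2, h3⟩
    have hu' : u = pr O (Units.mk0 α (ne_zero_of_eq_span hu)) := Units.ext hu
    rw [mem_loc h.le] at h1
    set r := Units.mk0 α (ne_zero_of_eq_span hu) with hr
    rw [hu', ucomm, rel_iff h (hle r h1)] at h3
    refine NF.trans ?_ h3
    refine ⟨r * ρ⁻¹, ?_, ?_, fun x hx => ?_⟩
    · rw [map_mul, map_inv, mul_comm a (pr O ρ), mul_comm a]; group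
    · simpa [hr] using mul_pos h2 (inv_pos.2 hσ)
    · rw [mul_comm a] at hx
      obtain ⟨y, hy, rfl⟩ := mem_pr_mul.1 hx
      have e : (((r * ρ⁻¹ : Kˣ) : K) - 1) * (ρ * y) = ((α + 1) - ((ρ : K) + 1)) * y := by
        simp only [hr, Units.val_mul, Units.val_mk0, Units.val_inv_eq_inv_val]
        field_simp
        ring
      rw [e]; exact L_mul_mem_right ((L m m).sub_mem h1 hρ) (ha hy)
  · intro h1
    refine ⟨(mem_Jflat h.le).2 (h1.le_L h.le (hle ρ hρ)), ρ, pr O ρ, rfl, (mem_loc h.le).2 hρ, hσ, ?_⟩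
    rw [ucomm, rel_iff h (hle ρ hρ)]; exact h1

end Pool.Agent.H897Z.MS
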