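import Pool.Agent.H897Z.MS.Rcf

open NumberField

namespace Pool.Agent.H897Z.MS

lemma unit_down {K : Type} [Field K] [Algebra K ℝ] {H H' : IntermediateField K ℝ} (hle : H ≤ H')
    (u : (𝓞 H')ˣ) (hu : (((u : 𝓞 H') : H') : ℝ) ∈ H) :
    ∃ v : (𝓞 H)ˣ, IntermediateField.inclusion hle ((v : 𝓞 H) : H) = ((u : 𝓞 H') : H') := by
  have key : ∀ x : 𝓞 H', ((x : H') : ℝ) ∈ H →
      ∃ y : 𝓞 H, IntermediateField.inclusion hle (y : H) = (x : H') := by
    intro x hx
    have h1 : IsIntegral ℤ (⟨_, hx⟩ : H) := by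
      rw [← isIntegral_algHom_iff ((IntermediateField.inclusion hle).toRingHom.toIntAlgHom)
        (IntermediateField.inclusion_injective hle)]
      exact x.2
    exact ⟨⟨_, h1⟩, rfl⟩
  have e0 : ((u : 𝓞 H') : H') * (((u⁻¹ : (𝓞 H')ˣ) : 𝓞 H') : H') = 1 := by
    have := congrArg (algebraMap (𝓞 H') H') u.mul_inv
    rwa [map_mul, map_one] at this
  have e1 : ((((u⁻¹ : (𝓞 H')ˣ) : 𝓞 H') : H') : ℝ) = (((u : 𝓞 H') : H') : ℝ)⁻¹ := by
    apply eq_inv_of_mul_eq_one_right
    exact_mod_cast congrArg Subtype.val e0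
  obtain ⟨y, hy⟩ := key _ hu
  obtain ⟨y', hy'⟩ := key ((u⁻¹ : (𝓞 H')ˣ) : 𝓞 H') (by rw [e1]; exact H.inv_mem hu)
  have e2 : y * y' = 1 := by
    apply RingOfIntegers.ext
    apply IntermediateField.inclusion_injective hle
    have e3 : ((y * y' : 𝓞 H) : H) = (y : H) * (y' : H) := rfl
    have e4 : ((1 : 𝓞 H) : H) = 1 := rfl
    rw [e3, e4, map_mul, map_one, hy, hy', e0]
  exact ⟨Units.mkOfMulEqOne y y' e2, hy⟩

variable {K : Type} [Field K] [NumberField K] [Algebra K ℝ] {O : Subalgebra ℤ K}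

set_option maxHeartbeats 800000 in
theorem main (σ : K →+* ℝ) (hO : IsOrder O) {m : Submodule O K} (h0 : m ≠ ⊥) (hle1 : m ≤ 1)
    (hne : m ≠ 1) (hyp : MonoidStark σ (colon m)) : MonoidStark σ m := by
  classical
  obtain ⟨H', Art', R', ε', hcl, hε⟩ := hyp
  have hg := hO.good h0 hle1 hne
  obtain ⟨hp, hm⟩ := hO.pair hg
  set m1 := res (le_OK hO.1) (colon m) with hm1
  obtain ⟨H, hle, Art, R, hArt, hfix⟩ := exists_rcf hg hp hm R'
  have := R'.fin
  have := R'.ab
  have hJ' : ∀ c, c ∈ G (colon m) → c ∈ Jm (colon m) := fun c hc => (mem_Jm hp.g'.le hp.g'.ne).2 hc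
  have hfinQ : Finite (Q σ (colon m)) := by
    refine finite_Q hp.g' Art' fun c hc d hd e => ?_
    have h1 := R'.mul _ (hJ' _ ((G _).mul_mem hd ((G _).inv_mem hc))) _ (hJ' _ hc)
    rw [inv_mul_cancel_right, ← e] at h1
    have h2 : Art' (d * c⁻¹) = 1 := mul_right_cancel (h1.symm.trans (one_mul _).symm)
    obtain ⟨l, h3, h4, h5⟩ := (mem_Pm hp.g'.le).1
      ((R'.ker _ (hJ' _ ((G _).mul_mem hd ((G _).inv_mem hc)))).1 h2)
    exact ⟨l, h3, h4, by rw [← h5, inv_mul_cancel_right]⟩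
  letI : Fintype (Q σ (colon m)) := Fintype.ofFinite _
  have hrep : ∀ q : Q σ (colon m), rep q ∈ Jflat (colon m) := fun q =>
    (mem_Jflat hp.g'.le).2 (rep_le q)
  let val : (𝓞 H')ˣ →* H' := (algebraMap (𝓞 H') H').toMonoidHom.comp (Units.coeHom _)
  have hval : ∀ u : (𝓞 H')ˣ, val u = ((u : 𝓞 H') : H') := fun _ => rfl
  let E : (Submodule O K)ˣ → (𝓞 H')ˣ := fun a => ∏ q : Q σ (colon m),
    ε' (rep q) ^ tt σ m hp a (rep q)
  have hEval : ∀ a, val (E a) = ∏ q : Q σ (colon m), val (ε' (rep q)) ^ tt σ m hp a (rep q) := by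
    intro a
    simp only [E, map_prod, map_pow]
  have hEa : ∀ a b, NF σ m a b → E a = E b := fun a b h =>
    Finset.prod_congr rfl fun q _ => by rw [tt_congr hp h]
  have hEb : ∀ a, ∀ C ∈ G m1, Art' (exU hp.le C) (val (E a)) = val (E (a * C)) := by
    intro a C hC
    have hC' := hp.exU_mem_G hC
    obtain ⟨e, he⟩ := exists_perm (σ := σ) hC'
    rw [hEval, hEval, ← Equiv.prod_comp e
      (fun q => val (ε' (rep q)) ^ tt σ m hp (a * C) (rep q)), map_prod]
    refine Finset.prod_congr rfl fun q _ => ?_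
    have h1 := (he q).le_L hp.g'.le (rep_le _)
    rw [map_pow, tt_of_NF hp hm _ (he q), tt_mul hp hm _ _ hC,
      hcl _ (hrep _) _ ((mem_Jflat hp.g'.le).2 h1) ((rel_iff hp.g' (rep_le _)).2 (he q))]
    congr 1
    exact (hε _ (hrep q)).2.1 _ (hJ' _ hC')
  have hdown : ∀ a : (Submodule O K)ˣ, (a : Submodule O K) ≤ L m 1 → ∃ v : (𝓞 H)ˣ,
      IntermediateField.inclusion hle ((v : 𝓞 H) : H) = val (E a) := by
    intro a ha
    refine unit_down hle (E a) (hfix _ fun C hC hCP => ?_)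
    rw [← hval, hEb a C hC, ← hEa _ _ (NF_mul_PS hg.le ha hCP)]
  choose! ε hεE using hdown
  have hinj := IntermediateField.inclusion_injective hle
  have hF := fun q : Q σ (colon m) => (hε _ (hrep q)).1
  choose F z hF1 hF2 hF3 hF4 hF5 using hF
  refine ⟨H, Art, R, ε, fun a ha b hb hab => ?_, fun a ha => ?_⟩
  · rw [mem_Jflat hg.le] at ha hb
    apply Units.ext
    apply RingOfIntegers.ext
    apply hinj
    rw [hεE a ha, hεE b hb, hEa a b ((rel_iff hg ha).1 hab)]
  rw [mem_Jflat hg.le] at ha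
  have hreal : (((ε a : 𝓞 H) : H) : ℝ) =
      ∏ q : Q σ (colon m), Real.exp (-z q) ^ tt σ m hp a (rep q) := by
    have h1 : (((ε a : 𝓞 H) : H) : ℝ) = H'.val (val (E a)) := by
      rw [← hεE a ha]; rfl
    rw [h1, hEval, map_prod]
    refine Finset.prod_congr rfl fun q _ => ?_
    rw [map_pow, ← hF5 q]; rfl
  refine ⟨⟨fun s => ∑ q : Q σ (colon m), (tt σ m hp a (rep q) : ℂ) * F q s,
    ∑ q : Q σ (colon m), (tt σ m hp a (rep q) : ℝ) * z q, ?_, ?_, fun s hs => ?_, ?_, ?_⟩,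
    fun b hb => ?_, fun τ hτ => ?_, ?_⟩
  · intro x _
    exact MeromorphicAt.fun_sum fun q _ =>
      (MeromorphicAt.const _ x).fun_mul (hF1 q x (Set.mem_univ x))
  · exact Finset.analyticAt_fun_sum _ fun q _ => analyticAt_const.fun_mul (hF2 q)
  · rw [Z_eq hp hm hg ha s (summable_units hs)]
    exact Finset.sum_congr rfl fun q _ => by rw [hF3 q s hs]
  · rw [deriv_fun_sum fun q _ => (analyticAt_const.fun_mul (hF2 q)).differentiableAt]
    push_cast
    refine Finset.sum_congr rfl fun q _ => ?_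
    rw [deriv_const_mul _ (hF2 q).differentiableAt, hF4 q]
  · rw [hreal, ← Finset.sum_neg_distrib, Real.exp_sum]
    refine Finset.prod_congr rfl fun q _ => ?_
    rw [← Real.exp_nat_mul, mul_neg]
  · rw [mem_Jm hg.le hg.ne] at hb
    obtain ⟨C, hC, hP⟩ := exists_dec (σ := σ) hp.g1 hg hm hb
    have h1 : ((a * C : (Submodule O K)ˣ) : Submodule O K) ≤ L m 1 := by
      rw [Units.val_mul]; exact mul_le_L1 ha (G_mono hm hC).1
    have h2 := NF_mul_PS hg.le h1 hP
    have e : a * C * (b * C⁻¹) = a * b := by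
      rw [ucomm b]; group
    rw [e] at h2
    apply hinj
    rw [hArt b hb C hC hP, hεE a ha, hεE _ (h2.le_L hg.le h1), hEb a C hC, hEa _ _ h2]
  · letI : Algebra H H' := (IntermediateField.inclusion hle).toRingHom.toAlgebra
    haveI : IsScalarTower K H H' := IsScalarTower.of_algebraMap_eq fun _ => rfl
    have : Algebra.IsAlgebraic H H' := Algebra.IsAlgebraic.tower_top (K := K) H
    obtain ⟨τ', hτ'⟩ := extend_emb H H' τ
    have h1 : ∀ x : K, τ' (algebraMap K H' x) = (σ x : ℂ) := fun x => by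
      rw [IsScalarTower.algebraMap_apply K H H', hτ', hτ]
    have h2 : algebraMap H H' ((ε a : 𝓞 H) : H) = val (E a) := hεE a ha
    rw [← hτ', h2, hEval, map_prod, norm_prod]
    refine Finset.prod_eq_one fun q _ => ?_
    rw [map_pow, norm_pow, hval, (hε _ (hrep q)).2.2.1 τ' h1, one_pow]
  · let T : Q σ (colon m) → IntermediateField K ℝ := fun q =>
      H' ⊔ IntermediateField.adjoin K {Real.sqrt (((ε' (rep q) : 𝓞 H') : H') : ℝ)}
    have hT : IsAbelianGalois K (⨆ q, T q : IntermediateField K ℝ) :=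
      abelian_iSup T fun q => (hε _ (hrep q)).2.2.2
    obtain ⟨q₀, -⟩ := exists_rep (σ := σ) (m' := colon m) (b := 1) (by simpa using le_L (colon m) 1)
    have hsub : (H ⊔ IntermediateField.adjoin K {Real.sqrt (((ε a : 𝓞 H) : H) : ℝ)} :
        IntermediateField K ℝ) ≤ ⨆ q, T q := by
      refine sup_le (hle.trans (le_sup_left.trans (le_iSup T q₀))) ?_
      rw [IntermediateField.adjoin_simple_le_iff]
      have e : Real.sqrt (((ε a : 𝓞 H) : H) : ℝ) = ∏ q : Q σ (colon m),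
          Real.sqrt (((ε' (rep q) : 𝓞 H') : H') : ℝ) ^ tt σ m hp a (rep q) := by
        rw [Real.sqrt_eq_iff_mul_self_eq (by rw [hreal]; positivity) (by positivity), hreal,
          ← Finset.prod_mul_distrib]
        refine Finset.prod_congr rfl fun q _ => ?_
        rw [← mul_pow, hF5 q, Real.mul_self_sqrt (Real.exp_pos _).le]
      rw [e]
      refine prod_mem fun q _ => pow_mem ?_ _
      exact (le_sup_right.trans (le_iSup T q)) (IntermediateField.mem_adjoin_simple_self K _)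
    exact IsAbelianGalois.of_algHom (IntermediateField.inclusion hsub)

end Pool.Agent.H897Z.MS
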