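import Pool.Agent.H897Z.MS.Count

open NumberField Filter Topology

namespace Pool.Agent.H897Z.MS

variable {K : Type} [Field K] [NumberField K] {O : Subalgebra ℤ K}

lemma summable_ideals {s : ℂ} (hs : 1 < s.re) :
    Summable fun I : Ideal (𝓞 K) => ‖((Ideal.absNorm I : ℕ) : ℂ) ^ (-s)‖ := by
  classical
  have ht : Tendsto (fun n : ℕ => (∑ k ∈ Finset.Icc 1 n,
      (Nat.card {I : Ideal (𝓞 K) // Ideal.absNorm I = k} : ℝ)) / (n : ℝ)) atTop
      (𝓝 (dedekindZeta_residue K)) := by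
    refine ((Ideal.tendsto_norm_le_div_atTop₀ K).comp tendsto_natCast_atTop_atTop).congr
      fun n ↦ ?_
    simp only [Function.comp_apply, Nat.cast_le, ← Nat.cast_sum]
    congr
    rw [← add_left_inj 1, ← Ideal.card_norm_le_eq_card_norm_le_add_one,
      show Finset.Icc 1 n = Finset.Ioc 0 n from Finset.Icc_succ_left_eq_Ioc _ _,
      show 1 = Nat.card {I : Ideal (𝓞 K) // Ideal.absNorm I = 0} by
        simp [Ideal.absNorm_eq_zero_iff],
      Finset.sum_Ioc_add_eq_sum_Icc (n.zero_le),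
      ← Finset.card_preimage_eq_sum_card_image_eq
        (fun k _ ↦ Ideal.finite_setOfPred_absNorm_eq k)]
    simp [Set.coe_eq_subtype]
  have hO := Asymptotics.isBigO_atTop_natCast_rpow_of_tendsto_div_rpow (r := 1) (a := dedekindZeta_residue K)
    (g := fun n : ℕ => ∑ k ∈ Finset.Icc 1 n,
      (Nat.card {I : Ideal (𝓞 K) // Ideal.absNorm I = k} : ℝ)) (by simpa using ht)
  have hL := (LSeriesSummable_of_sum_norm_bigO_and_nonneg hO (fun _ => Nat.cast_nonneg _)
    zero_le_one hs).norm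
  have hs0 : -s ≠ 0 := by
    intro h
    have : s = 0 := neg_eq_zero.1 h
    rw [this] at hs; norm_num at hs
  rw [← (Equiv.sigmaFiberEquiv (fun I : Ideal (𝓞 K) => Ideal.absNorm I)).summable_iff]
  have e : ((fun I : Ideal (𝓞 K) => ‖((Ideal.absNorm I : ℕ) : ℂ) ^ (-s)‖) ∘
      (Equiv.sigmaFiberEquiv (fun I : Ideal (𝓞 K) => Ideal.absNorm I))) =
      fun p => ‖((p.1 : ℕ) : ℂ) ^ (-s)‖ := by
    funext p
    rw [Function.comp_apply, Equiv.sigmaFiberEquiv_apply, p.2.2]
  rw [e, summable_sigma_of_nonneg (fun _ => norm_nonneg _)]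
  refine ⟨fun n => ?_, hL.congr fun n => ?_⟩
  · have : Finite {I : Ideal (𝓞 K) // Ideal.absNorm I = n} :=
      (Ideal.finite_setOfPred_absNorm_eq n).to_subtype
    exact Summable.of_finite
  · simp only
    rw [tsum_const, nsmul_eq_mul]
    by_cases hn : n = 0
    · subst hn; simp [hs0]
    · rw [LSeries.term_of_ne_zero hn, Complex.cpow_neg, div_eq_mul_inv, norm_mul]
      simp

/-- the ideal of the ring of integers attached to a module -/
def idlK (b : Submodule (integralClosure ℤ K) K) : Ideal (𝓞 K) := idl b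

omit [NumberField K] in
lemma mem_idlK {b : Submodule (integralClosure ℤ K) K} {x : 𝓞 K} : x ∈ idlK b ↔ (x : K) ∈ b :=
  Iff.rfl

lemma nm_eq_absNorm {b : Submodule (integralClosure ℤ K) K} (hb : b ≤ 1) :
    nm b = Ideal.absNorm (idlK b) := by
  let f : 𝓞 K →+ K := (algebraMap (𝓞 K) K).toAddMonoidHom
  have hf : Function.Injective f := RingOfIntegers.coe_injective
  rw [Ideal.absNorm_eq_index, ← AddSubgroup.relIndex_top_right,
    ← AddSubgroup.relIndex_map_map_of_injective _ _ hf, nm]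
  congr 1
  · ext x
    constructor
    · intro hx; exact ⟨⟨x, mem_one'.1 (hb hx)⟩, hx, rfl⟩
    · rintro ⟨y, hy, rfl⟩; exact hy
  · ext x
    constructor
    · intro hx; exact ⟨⟨x, mem_one'.1 hx⟩, trivial, rfl⟩
    · rintro ⟨y, -, rfl⟩; exact mem_one'.2 y.2

lemma summable_units {s : ℂ} (hs : 1 < s.re) :
    Summable (Set.indicator {b : (Submodule (integralClosure ℤ K) K)ˣ |
        (b : Submodule (integralClosure ℤ K) K) ≤ 1}
      fun b => ‖((nm (b : Submodule (integralClosure ℤ K) K) : ℕ) : ℂ) ^ (-s)‖) := by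
  rw [← summable_subtype_iff_indicator]
  let g : {b : (Submodule (integralClosure ℤ K) K)ˣ |
        (b : Submodule (integralClosure ℤ K) K) ≤ 1} → Ideal (𝓞 K) := fun b => idlK b.1
  have hg : Function.Injective g := by
    intro b c e
    refine Subtype.ext (Units.ext (Submodule.ext fun x => ⟨fun hx => ?_, fun hx => ?_⟩))
    · have : (⟨x, mem_one'.1 (b.2 hx)⟩ : 𝓞 K) ∈ g c := e ▸ hx
      exact this
    · have : (⟨x, mem_one'.1 (c.2 hx)⟩ : 𝓞 K) ∈ g b := e.symm ▸ hx
      exact this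
  refine ((summable_ideals hs).comp_injective hg).congr fun b => ?_
  simp only [Function.comp_apply, g]
  rw [nm_eq_absNorm b.2]

lemma exists_unit_of_ideal {p : Ideal (𝓞 K)} (hp : p ≠ ⊥) :
    ∃ a' : (Submodule (integralClosure ℤ K) K)ˣ, ∀ x, x ∈ (a' : Submodule (integralClosure ℤ K) K) ↔
      ∃ y ∈ p, (y : K) = x := by
  let u : (FractionalIdeal (nonZeroDivisors (𝓞 K)) K)ˣ :=
    Units.mk0 (p : FractionalIdeal (nonZeroDivisors (𝓞 K)) K)
      (FractionalIdeal.coeIdeal_ne_zero.2 hp)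
  let v : (Submodule (𝓞 K) K)ˣ :=
    Units.map (FractionalIdeal.coeSubmoduleHom (nonZeroDivisors (𝓞 K)) K).toMonoidHom u
  refine ⟨v, fun x => ?_⟩
  change x ∈ (p : FractionalIdeal (nonZeroDivisors (𝓞 K)) K) ↔ _
  rw [FractionalIdeal.mem_coeIdeal]

omit [NumberField K] in
lemma le_OK (hO : Module.Finite ℤ O) : O ≤ integralClosure ℤ K := by
  intro x hx
  have : IsIntegral ℤ (⟨x, hx⟩ : O) := Algebra.IsIntegral.isIntegral _
  exact this.map O.val

lemma IsOrder.exists_nat (hO : IsOrder O) (x : K) : ∃ n : ℕ, 0 < n ∧ (n : K) * x ∈ O := by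
  have hx : x ∈ Submodule.span ℚ (O : Set K) := by rw [hO.2]; trivial
  induction hx using Submodule.span_induction with
  | mem x hx => exact ⟨1, one_pos, by simpa using hx⟩
  | zero => exact ⟨1, one_pos, by simp⟩
  | add x y _ _ hx hy =>
    obtain ⟨n, hn, h1⟩ := hx
    obtain ⟨k, hk, h2⟩ := hy
    refine ⟨n * k, mul_pos hn hk, ?_⟩
    have e : ((n * k : ℕ) : K) * (x + y) = k * (n * x) + n * (k * y) := by push_cast; ring
    rw [e]
    exact O.add_mem (O.mul_mem (natCast_mem O k) h1) (O.mul_mem (natCast_mem O n) h2)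
  | smul r x _ hx =>
    obtain ⟨n, hn, h1⟩ := hx
    refine ⟨n * r.den, mul_pos hn r.den_pos, ?_⟩
    have e : ((n * r.den : ℕ) : K) * (r • x) = (r.num : K) * (n * x) := by
      have h2 : (r.den : K) ≠ 0 := by exact_mod_cast r.den_ne_zero
      rw [Rat.smul_def, Rat.cast_def]
      push_cast
      field_simp
    rw [e]
    exact O.mul_mem (intCast_mem O _) h1

lemma finite_OK : Module.Finite ℤ (integralClosure ℤ K) :=
  inferInstanceAs (Module.Finite ℤ (𝓞 K))

lemma IsOrder.exists_cond (hO : IsOrder O) :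
    ∃ n : ℕ, 0 < n ∧ ∀ x ∈ integralClosure ℤ K, (n : K) * x ∈ O := by
  have h1 : (Subalgebra.toSubmodule (integralClosure ℤ K)).FG := by
    rw [← Module.Finite.iff_fg]; exact finite_OK
  have key : ∀ A : Submodule ℤ K, A.FG → ∃ n : ℕ, 0 < n ∧ ∀ x ∈ A, (n : K) * x ∈ O := by
    intro A hA
    induction A, hA using Submodule.fg_induction with
    | singleton x =>
      obtain ⟨n, hn, h⟩ := hO.exists_nat x
      refine ⟨n, hn, fun y hy => ?_⟩
      obtain ⟨r, rfl⟩ := Submodule.mem_span_singleton.1 hy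
      have e : (n : K) * (r • x) = (r : K) * (n * x) := by rw [zsmul_eq_mul]; ring
      rw [e]; exact O.mul_mem (intCast_mem O _) h
    | sup A B _ _ ihA ihB =>
      obtain ⟨n, hn, h1⟩ := ihA
      obtain ⟨k, hk, h2⟩ := ihB
      refine ⟨n * k, mul_pos hn hk, fun t ht => ?_⟩
      obtain ⟨x, hx, y, hy, rfl⟩ := Submodule.mem_sup.1 ht
      have e : ((n * k : ℕ) : K) * (x + y) = k * (n * x) + n * (k * y) := by push_cast; ring
      rw [e]
      exact O.add_mem (O.mul_mem (natCast_mem O k) (h1 x hx)) (O.mul_mem (natCast_mem O n) (h2 y hy))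
  exact key _ h1

omit [NumberField K] in
lemma mem_colon {m : Submodule O K} {x : K} :
    x ∈ colon m ↔ ∀ y ∈ integralClosure ℤ K, x * y ∈ m := Iff.rfl

omit [NumberField K] in
lemma mem_of_mem_colon {m : Submodule O K} {x : K} (hx : x ∈ colon m) : x ∈ m := by
  simpa using hx 1 (integralClosure ℤ K).one_mem

omit [NumberField K] in
lemma mem_colon_colon {m : Submodule O K} {x : K} : x ∈ colon (colon m) ↔ x ∈ colon m :=
  ⟨mem_of_mem_colon, fun hx y hy => by rw [mul_comm]; exact mul_mem' hy hx⟩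

lemma IsOrder.good (hO : IsOrder O) {m : Submodule O K} (h0 : m ≠ ⊥) (hle : m ≤ 1) (hne : m ≠ 1) :
    Good m := by
  refine ⟨hO.1, hle, hne, ?_⟩
  obtain ⟨x, hx, hx0⟩ := Submodule.exists_mem_ne_zero_of_ne_bot h0
  obtain ⟨n, hn, h⟩ := hO.exists_nat x⁻¹
  refine ⟨n, hn, ?_⟩
  have := mul_mem' h hx
  rwa [mul_assoc, inv_mul_cancel₀ hx0, mul_one] at this

lemma IsOrder.pair (hO : IsOrder O) {m : Submodule O K} (hg : Good m) :
    Pair (res (le_OK hO.1) (colon m)) (colon m) ∧ res (le_OK hO.1) (colon m) ≤ m := by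
  obtain ⟨n, hn, h⟩ := hO.exists_cond
  obtain ⟨N, hN, hNm⟩ := hg.nat
  have hle : res (le_OK hO.1) (colon m) ≤ m := fun x hx => mem_of_mem_colon hx
  have hnat : ((n * N : ℕ) : K) ∈ colon m := fun y hy => by
    have e : ((n * N : ℕ) : K) * y = (n * y) * N := by push_cast; ring
    rw [e]; exact mul_mem' (h y hy) hNm
  have h1 : (1 : K) ∉ colon m := fun h1 =>
    hg.ne (le_antisymm hg.le (Submodule.one_le.2 (mem_of_mem_colon h1)))
  refine ⟨⟨le_OK hO.1, fun _ => Iff.rfl, ⟨hO.1, hle.trans hg.le, fun e => h1 ?_,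
    n * N, mul_pos hn hN, hnat⟩, ⟨finite_OK, fun x hx => ?_, fun e => h1 ?_,
    n * N, mul_pos hn hN, hnat⟩⟩, hle⟩
  · have : (1 : K) ∈ res (le_OK hO.1) (colon m) := by rw [e]; exact mem_one'.2 O.one_mem
    exact this
  · exact mem_one'.2 (le_OK hO.1 (mem_one'.1 (hg.le (mem_of_mem_colon hx))))
  · rw [e]; exact mem_one'.2 (integralClosure ℤ K).one_mem

end Pool.Agent.H897Z.MS
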