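import Pool.Agent.H897Z.MS.Dec
import Pool.Agent.H897Z.MS.Fld

open NumberField

namespace Pool.Agent.H897Z.MS

lemma abstract_art {U Γ' Γ : Type} [Group U] (hcomm : ∀ a b : U, a * b = b * a) [Group Γ'] [Group Γ]
    (Gm G1 P : Subgroup U) (A1 : G1 →* Γ') (r : Γ' →* Γ)
    (hker : ∀ g, r g = 1 ↔ g ∈ (P.subgroupOf G1).map A1)
    (hdec : ∀ B ∈ Gm, ∃ C ∈ G1, B * C⁻¹ ∈ P) (hA1ker : ∀ c, A1 c = 1 → (c : U) ∈ P) :
    ∃ Art : U → Γ, (∀ B ∈ Gm, ∀ D : G1, B * (D : U)⁻¹ ∈ P → Art B = r (A1 D)) ∧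
      (∀ B ∈ Gm, Art B = 1 ↔ B ∈ P) ∧ (∀ a ∈ Gm, ∀ b ∈ Gm, Art (a * b) = Art a * Art b) := by
  classical
  choose C hC hCP using hdec
  let Art : U → Γ := fun B => if h : B ∈ Gm then r (A1 ⟨C B h, hC B h⟩) else 1
  have wd : ∀ B ∈ Gm, ∀ D : G1, B * (D : U)⁻¹ ∈ P → Art B = r (A1 D) := by
    intro B hB D hD
    have h1 := P.mul_mem (P.inv_mem (hCP B hB)) hD
    have e : (B * (C B hB)⁻¹)⁻¹ * (B * (D : U)⁻¹) = C B hB * (D : U)⁻¹ := by
      group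
    rw [e] at h1
    have h2 : A1 (⟨C B hB, hC B hB⟩ * D⁻¹) ∈ (P.subgroupOf G1).map A1 :=
      ⟨⟨C B hB, hC B hB⟩ * D⁻¹, h1, rfl⟩
    rw [← hker, map_mul, map_mul, map_inv, map_inv, mul_inv_eq_one] at h2
    simp only [Art, dif_pos hB]
    exact h2
  refine ⟨Art, wd, fun B hB => ⟨fun h => ?_, fun h => ?_⟩, fun a ha b hb => ?_⟩
  · rw [wd B hB ⟨C B hB, hC B hB⟩ (hCP B hB), hker] at h
    obtain ⟨D, hD, e⟩ := h
    have h1 := hA1ker (⟨C B hB, hC B hB⟩ * D⁻¹) (by rw [map_mul, map_inv, e, mul_inv_cancel])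
    have h2 := P.mul_mem (P.mul_mem (hCP B hB) h1) hD
    simpa using h2
  · rw [wd B hB 1 (by simpa using h), map_one, map_one]
  · have h1 := P.mul_mem (hCP a ha) (hCP b hb)
    have e : a * (C a ha)⁻¹ * (b * (C b hb)⁻¹) = a * b * (C a ha * C b hb)⁻¹ := by
      rw [mul_inv_rev, mul_assoc, hcomm (C a ha)⁻¹]; group
    rw [e] at h1
    rw [wd _ (Gm.mul_mem ha hb) (⟨C a ha, hC a ha⟩ * ⟨C b hb, hC b hb⟩) h1,
      wd a ha ⟨C a ha, hC a ha⟩ (hCP a ha), wd b hb ⟨C b hb, hC b hb⟩ (hCP b hb), map_mul, map_mul]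

variable {K : Type} [Field K] [NumberField K] [Algebra K ℝ] {O : Subalgebra ℤ K} {σ : K →+* ℝ}
  {m m1 : Submodule O K}

omit [Algebra K ℝ] in
lemma goodPrime_data (hp : Pair m1 (colon m)) {p : Ideal (𝓞 K)} (h : GoodPrime m p) :
    p.IsMaximal ∧ GoodPrime (colon m) p ∧ ∃ a : (Submodule O K)ˣ, a ∈ G m1 ∧
      ((a : Submodule O K) : Set K) = capO O p ∧
      (((exU hp.le a : (Submodule (integralClosure ℤ K) K)ˣ) :
        Submodule (integralClosure ℤ K) K) : Set K) = capO (integralClosure ℤ K) p := by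
  obtain ⟨h1, x, hx, hx1⟩ := h
  have hne : p ≠ ⊥ := by
    rintro rfl
    have : x = 0 := hx
    rw [this] at hx1
    exact one_sub_ne_zero hp.g'.le hp.g'.ne hx1 (by simp)
  refine ⟨h1.isMaximal hne, ⟨h1, x, hx, mem_colon_colon.2 hx1⟩, ?_⟩
  obtain ⟨a', ha'⟩ := exists_unit_of_ideal hne
  have hle : (a' : Submodule (integralClosure ℤ K) K) ≤ 1 := fun y hy => by
    obtain ⟨w, -, rfl⟩ := (ha' y).1 hy
    exact mem_one'.2 w.2
  obtain ⟨a, h2, h3, h4⟩ := hp.contr hle ((sup_eq_one_iff hp.g'.le hle).2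
    ⟨1 - x, hx1, (ha' _).2 ⟨x, hx, by simp⟩⟩)
  refine ⟨a, h4, ?_, ?_⟩
  · ext y
    rw [SetLike.mem_coe, h2, ha']; rfl
  · ext y
    rw [h3, SetLike.mem_coe, ha']
    constructor
    · rintro ⟨w, hw, rfl⟩; exact ⟨w.2, w, hw, rfl⟩
    · exact fun h => h.2

set_option maxHeartbeats 400000 in
lemma exists_rcf (hg : Good m) (hp : Pair m1 (colon m)) (hm : m1 ≤ m)
    {H' : IntermediateField K ℝ}
    {Art' : (Submodule (integralClosure ℤ K) K)ˣ → (H' ≃ₐ[K] H')}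
    (R' : IsRCF σ (colon m) H' Art') :
    ∃ (H : IntermediateField K ℝ) (hle : H ≤ H') (Art : (Submodule O K)ˣ → (H ≃ₐ[K] H)),
      IsRCF σ m H Art ∧
      (∀ B ∈ G m, ∀ C ∈ G m1, B * C⁻¹ ∈ PS σ hg.le → ∀ x : H,
        IntermediateField.inclusion hle (Art B x) =
          Art' (exU hp.le C) (IntermediateField.inclusion hle x)) ∧
      ∀ x : H', (∀ C ∈ G m1, C ∈ PS σ hg.le → Art' (exU hp.le C) x = x) → (x : ℝ) ∈ H := by
  classical
  have := R'.fin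
  have := R'.ab
  have hJ : ∀ c ∈ G m1, exU hp.le c ∈ Jm (colon m) := fun c hc =>
    (mem_Jm hp.g'.le hp.g'.ne).2 (hp.exU_mem_G hc)
  let A1 : G m1 →* (H' ≃ₐ[K] H') := MonoidHom.mk' (fun c => Art' (exU hp.le c)) (fun c d => by
    simp only [Subgroup.coe_mul, map_mul]
    exact R'.mul _ (hJ _ c.2) _ (hJ _ d.2))
  have hA1 : ∀ c : G m1, A1 c = Art' (exU hp.le c) := fun _ => rfl
  let N : Subgroup (H' ≃ₐ[K] H') := ((PS σ hg.le).subgroupOf (G m1)).map A1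
  obtain ⟨H, hle, r, hfin, hab, hrs, hr, hker, hfix⟩ := exists_subfield H' N
  have hA1ker : ∀ c : G m1, A1 c = 1 → (c : (Submodule O K)ˣ) ∈ PS σ hg.le := by
    intro c hc
    obtain ⟨l, h1, h2, h3⟩ := (mem_Pm hp.g'.le).1 ((R'.ker _ (hJ _ c.2)).1 hc)
    have h4 := hp.mem_LL.2 h1
    have h5 : pr O l ∈ G m1 := pr_mem_G hp.g1.le (e := 1) (by ring) O.one_mem h4
    have h6 := hp.eq_one_of_exU ((G m1).mul_mem c.2 ((G m1).inv_mem h5))
      (by rw [map_mul, map_inv, exU_pr, h3, mul_inv_cancel])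
    exact NF_one_iff.2 ⟨l, L_mono hm hm h4, h2, mul_inv_eq_one.1 h6⟩
  obtain ⟨Art, wd, hkerArt, hmul⟩ := abstract_art ucomm (G m) (G m1) (PS σ hg.le) A1 r hker
    (fun B hB => exists_dec (σ := σ) hp.g1 hg hm hB) hA1ker
  letI : Algebra H H' := (IntermediateField.inclusion hle).toRingHom.toAlgebra
  haveI : IsScalarTower K H H' := IsScalarTower.of_algebraMap_eq fun _ => rfl
  have : NumberField H := NumberField.of_module_finite K H
  have : NumberField H' := NumberField.of_module_finite K H'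
  have hunram : ∀ p : Ideal (𝓞 K), GoodPrime m p → ∀ P : Ideal (𝓞 H), P.IsPrime → P.LiesOver p →
      P.ramificationIdx (𝓞 K) = 1 := by
    intro p hgp P h1 h2
    obtain ⟨-, hgp', -⟩ := goodPrime_data hp hgp
    obtain ⟨P', h3, h4, h5, -⟩ := prime_up K H H' p P
    rw [R'.unram p hgp' P' h3 h4] at h5
    exact Nat.dvd_one.1 h5
  have hfrob : ∀ p : Ideal (𝓞 K), GoodPrime m p → ∀ a : (Submodule O K)ˣ,
      ((a : Submodule O K) : Set K) = capO O p → ∀ P : Ideal (𝓞 H), P.IsPrime → P.LiesOver p →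
      ∀ x : 𝓞 H, Art a • x - x ^ Nat.card (𝓞 K ⧸ p) ∈ P := by
    intro p hgp a ha P h1 h2 x
    obtain ⟨-, hgp', a₀, ha₀, e₀, e₁⟩ := goodPrime_data hp hgp
    have : a = a₀ := Units.ext (SetLike.coe_injective (ha.trans e₀.symm))
    subst this
    obtain ⟨P', h3, h4, -, h5⟩ := prime_up K H H' p P
    rw [h5, map_sub, map_pow]
    have h6 := R'.frob p hgp' _ e₁ P' h3 h4 (algebraMap (𝓞 H) (𝓞 H') x)
    have h7 : algebraMap (𝓞 H) (𝓞 H') (Art a • x) =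
        Art' (exU hp.le a) • algebraMap (𝓞 H) (𝓞 H') x := by
      apply RingOfIntegers.ext
      rw [wd a (G_mono hm ha₀) ⟨a, ha₀⟩ (by simp)]
      exact hr _ _
    rw [h7]; exact h6
  refine ⟨H, hle, Art, ⟨hfin, hab, hunram, fun p hgp => ?_, fun a ha b hb => ?_, fun g => ?_,
    fun a ha => ?_, hfrob⟩, fun B hB D hD hP x => ?_, fun x hx => hfix x ?_⟩
  · obtain ⟨hmax, -, a, ha, e₀, -⟩ := goodPrime_data hp hgp
    constructor
    · intro h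
      obtain ⟨P, h1, h2⟩ := (inferInstance : Nonempty (p.primesOver (𝓞 H)))
      have h3 := frob_eq_one p P (Art a) (hfrob p hgp a e₀ P h1 h2) (h P h1 h2).1 (h P h1 h2).2
      obtain ⟨l, h4, h5, h6⟩ := NF_one_iff.1 ((hkerArt a (G_mono hm ha)).1 h3)
      have h7 : (l : K) ∈ capO O p := by
        rw [← e₀, h6]; exact Submodule.mem_span_singleton_self _
      exact ⟨l, h7.1, by rw [← e₀, h6, pr_val],
        mem_of_L_of_mem hg.le h4 (O.sub_mem h7.1 O.one_mem), h5⟩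
    · rintro ⟨π, -, h1, h2, h3⟩ P h4 h5
      refine ⟨hunram p hgp P h4 h5, inertia_eq_one p P fun x => ?_⟩
      have h6 : Art a = 1 := (hkerArt a (G_mono hm ha)).2 ((mem_PS hg.le).2
        ⟨π, (mem_loc hg.le).2 (le_L _ _ h2), h3, SetLike.coe_injective (e₀.trans h1)⟩)
      have h7 := hfrob p hgp a e₀ P h4 h5 x
      rwa [h6, one_smul] at h7
  · exact hmul a ((mem_Jm hg.le hg.ne).1 ha) b ((mem_Jm hg.le hg.ne).1 hb)
  · obtain ⟨g', rfl⟩ := hrs g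
    obtain ⟨c', hc', rfl⟩ := R'.surj g'
    obtain ⟨c, hc, rfl⟩ := hp.exU_surj ((mem_Jm hp.g'.le hp.g'.ne).1 hc')
    exact ⟨c, (mem_Jm hg.le hg.ne).2 (G_mono hm hc), wd c (G_mono hm hc) ⟨c, hc⟩ (by simp)⟩
  · rw [hkerArt a ((mem_Jm hg.le hg.ne).1 ha), mem_PS]
  · rw [wd B hB ⟨D, hD⟩ hP]; exact hr _ _
  · rintro _ ⟨D, hD, rfl⟩
    exact hx D D.2 hD

end Pool.Agent.H897Z.MS
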